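import Pool.Agent.K4H17.WF.Good

/-! # The submodule `G'(M)` of a nice module and the lattice isomorphism -/

namespace K4H17.WF

open Module TensorProduct

set_option linter.unusedSectionVars false

noncomputable section

variable {ι V : Type*} [AddCommGroup V] [Module ℂ V] (b : Basis ι ℂ V)
variable (M : Type*) [AddCommGroup M] [Module ℂ M] [LieRingModule (Module.End ℂ V) M]
  [LieModule ℂ (Module.End ℂ V) M]
variable {M' : Type*} [AddCommGroup M'] [Module ℂ M'] [LieRingModule (Module.End ℂ V) M']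
  [LieModule ℂ (Module.End ℂ V) M']

/-- The vectors killed by all operators `c` with `π_S c = 0 = c π_S` for some finite `S`, as a
`sl(V, V_*)`-submodule. -/
def GM : LieSubmodule ℂ (SL b) M where
  carrier := {y | ∃ S : Finset ι, y ∈ Z b M S}
  zero_mem' := ⟨∅, Submodule.zero_mem _⟩
  add_mem' := by
    classical
    rintro x y ⟨S, hS⟩ ⟨T, hT⟩
    exact ⟨S ∪ T, Submodule.add_mem _ (Z_mono b Finset.subset_union_left hS)
      (Z_mono b Finset.subset_union_right hT)⟩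
  smul_mem' := by
    rintro a x ⟨S, hS⟩
    exact ⟨S, Submodule.smul_mem _ _ hS⟩
  lie_mem := by
    classical
    rintro ⟨a, ha⟩ y ⟨S, hS⟩
    obtain ⟨T, hT⟩ := FR_of_sl b ha
    have h1 := hT (S ∪ T) Finset.subset_union_right
    have hy := Z_mono b (Finset.subset_union_left (s₂ := T)) hS
    refine ⟨S ∪ T, fun c hc hc' => ?_⟩
    change ⁅c, ⁅a, y⁆⁆ = 0
    rw [leibniz_lie, hy c hc hc', lie_zero, add_zero, Ring.lie_def]
    have e1 : c * a = 0 := by rw [← h1.1, ← mul_assoc, hc', zero_mul]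
    have e2 : a * c = 0 := by rw [← h1.2, mul_assoc, hc, mul_zero]
    rw [e1, e2, sub_zero, zero_lie]

variable {M}

lemma mem_GM {y : M} : y ∈ GM b M ↔ ∃ S : Finset ι, y ∈ Z b M S := Iff.rfl

/-- The subspace `Z_S ⊕ P_S`. -/
def Q (M : Type*) [AddCommGroup M] [Module ℂ M] [LieRingModule (Module.End ℂ V) M]
    [LieModule ℂ (Module.End ℂ V) M] (S : Finset ι) : Submodule ℂ M where
  carrier := {x | ∃ y ∈ Z b M S, Pr (pr b S - 1) x y}
  zero_mem' := ⟨0, Submodule.zero_mem _, Pr.zero _⟩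
  add_mem' := by
    rintro x y ⟨x', hx, h⟩ ⟨y', hy, h'⟩
    exact ⟨x' + y', Submodule.add_mem _ hx hy, h.add h'⟩
  smul_mem' := by
    rintro a x ⟨x', hx, h⟩
    exact ⟨a • x', Submodule.smul_mem _ _ hx, h.smul a⟩

lemma Kp_le_Q (S : Finset ι) : Eig M (pr b S - 1) Kp ≤ Q b M S := fun x hx =>
  ⟨0, Submodule.zero_mem _, lie_zero _, by rwa [sub_zero]⟩

lemma Eig_stable_of_comm {c d : Module.End ℂ V} (h : ⁅c, d⁆ = 0) {K : Set ℂ} {x : M}
    (hx : x ∈ Eig M c K) : ⁅d, x⁆ ∈ Eig M c K := by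
  refine Eig_mem_of_comm (LieModule.toEnd ℂ (Module.End ℂ V) M d) ?_ hx
  intro y l hl e
  refine mem_Eig hl ?_
  rw [LieModule.toEnd_apply_apply, leibniz_lie, h, zero_lie, zero_add, e, lie_smul]

/-- Lemma K. -/
lemma lie_mem_Kp {S : Finset ι} {c : Module.End ℂ V} (hc : c * pr b S = 0) {x : M}
    (hx : x ∈ Q b M S) : ⁅c, x⁆ ∈ Eig M (pr b S - 1) Kp := by
  obtain ⟨y, hy, h0, hp⟩ := hx
  have ec : c = pr b S * c + (c - pr b S * c) := by abel
  have h1 : ⁅pr b S - 1, pr b S * c⁆ = pr b S * c := by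
    rw [Ring.lie_def, sub_mul, ← mul_assoc, pr_mul_self, one_mul, sub_self, zero_sub,
      mul_sub, mul_assoc, hc, mul_zero, mul_one, zero_sub, neg_neg]
  have h2 : pr b S * (c - pr b S * c) = 0 := by
    rw [mul_sub, ← mul_assoc, pr_mul_self, sub_self]
  have h3 : (c - pr b S * c) * pr b S = 0 := by
    rw [sub_mul, mul_assoc, hc, mul_zero, sub_zero]
  have h4 : ⁅pr b S - 1, c - pr b S * c⁆ = 0 := by
    rw [Ring.lie_def, sub_mul, h2, one_mul, mul_sub, h3, mul_one]; abel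
  have ex : x = y + (x - y) := by abel
  rw [ex, lie_add]
  refine Submodule.add_mem _ ?_ ?_
  · rw [ec, add_lie, hy _ h2 h3, add_zero]
    refine mem_Eig_one one_mem_Kp ?_
    rw [leibniz_lie, h1, h0, lie_zero, add_zero]
  · rw [ec, add_lie]
    refine Submodule.add_mem _ ?_ (Eig_stable_of_comm h4 hp)
    refine Eig_mem_of_comm (LieModule.toEnd ℂ (Module.End ℂ V) M (pr b S * c)) ?_ hp
    intro z l hl e
    refine mem_Eig (l := 1 + l) (Kn_add_Kp one_mem_Kn hl) ?_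
    rw [LieModule.toEnd_apply_apply, leibniz_lie, h1, e, lie_smul, add_smul, one_smul]

lemma comm_g {S T : Finset ι} (h : S ⊆ T) : ⁅pr b S - 1, pr b T - 1⁆ = 0 := by
  rw [Ring.lie_def]
  simp only [sub_mul, mul_sub, one_mul, mul_one, pr_mul_of_subset b h, pr_mul_of_subset' b h]
  abel

lemma lie_g_mem_Kp {S T : Finset ι} (h : S ⊆ T) {x : M} (hx : x ∈ Q b M S) :
    ⁅pr b T - 1, x⁆ ∈ Eig M (pr b S - 1) Kp := by
  obtain ⟨y, hy, h0, hp⟩ := hx
  have ex : x = y + (x - y) := by abel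
  rw [ex, lie_add, lie_g_of_Z b h hy, zero_add]
  exact Eig_stable_of_comm (comm_g b h) hp

lemma lie_g_mem_Q {S T : Finset ι} (h : S ⊆ T) {x : M} (hx : x ∈ Q b M S) :
    ⁅pr b T - 1, x⁆ ∈ Q b M S := Kp_le_Q b S (lie_g_mem_Kp b h hx)

lemma Kp_of_Kp {S T : Finset ι} (h : S ⊆ T) {x : M} (hx : x ∈ Q b M S)
    (hx' : x ∈ Eig M (pr b T - 1) Kp) : x ∈ Eig M (pr b S - 1) Kp := by
  have := eig_inf (Q b M S) (fun y hy => lie_g_mem_Q b h hy) hx hx'
  refine Submodule.span_le.mpr ?_ this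
  rintro w ⟨hw, l, hl, e⟩
  have h1 := lie_g_mem_Kp b h hw
  have hl0 : l ≠ 0 := by rintro rfl; exact zero_not_mem_Kp hl
  rw [e] at h1
  have := Submodule.smul_mem _ l⁻¹ h1
  rwa [smul_smul, inv_mul_cancel₀ hl0, one_smul] at this

lemma main_comp {S T : Finset ι} (h : S ⊆ T) {a : Module.End ℂ V}
    (ha : pr b T * (a * pr b S) = a * pr b S) {x y : M} (hx : x ∈ Q b M S)
    (hax : ⁅a, x⁆ ∈ Q b M S) (hxy : Pr (pr b T - 1) x y) :
    ⁅a, x⁆ - ⁅a * pr b T, y⁆ ∈ Eig M (pr b S - 1) Kp := by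
  have hy : y ∈ Q b M S := hxy.mem _ (fun z hz => lie_g_mem_Q b h hz) hx
  have hxy' : x - y ∈ Q b M S := Submodule.sub_mem _ hx hy
  have e1 : (a * (1 - pr b T)) * pr b S = 0 := by
    rw [mul_assoc, sub_mul, one_mul, pr_mul_of_subset' b h, sub_self, mul_zero]
  have e2 : (a * (1 - pr b S)) * pr b S = 0 := by
    rw [mul_assoc, sub_mul, one_mul, pr_mul_self, sub_self, mul_zero]
  have h1 := lie_mem_Kp b e1 hy
  have h2 := lie_mem_Kp b e2 hxy'
  have h3 : ⁅a * pr b S, x⁆ ∈ Q b M S := by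
    have h4 := Submodule.sub_mem _ hax (Kp_le_Q b S (lie_mem_Kp b e2 hx))
    have : ⁅a, x⁆ - ⁅a * (1 - pr b S), x⁆ = ⁅a * pr b S, x⁆ := by
      rw [← sub_lie, mul_sub, mul_one]; congr 1; abel
    rwa [this] at h4
  have e3 : ⁅pr b T - 1, a * pr b S⁆ = 0 := by
    rw [Ring.lie_def, sub_mul, ha, one_mul, sub_self, mul_assoc, mul_sub,
      pr_mul_of_subset b h, mul_one, sub_self, mul_zero, sub_zero]
  have h5 : Pr (pr b T - 1) ⁅a * pr b S, x⁆ ⁅a * pr b S, y⁆ := by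
    refine hxy.hom (LieModule.toEnd ℂ (Module.End ℂ V) M (a * pr b S)) ?_
    intro z
    rw [LieModule.toEnd_apply_apply, LieModule.toEnd_apply_apply, leibniz_lie (pr b T - 1), e3,
      zero_lie, zero_add]
  have h6 : ⁅a * pr b S, x - y⁆ ∈ Q b M S := by
    rw [lie_sub]
    exact Submodule.sub_mem _ h3 (h5.mem _ (fun z hz => lie_g_mem_Q b h hz) h3)
  have h7 : ⁅a * pr b S, x - y⁆ ∈ Eig M (pr b S - 1) Kp := by
    refine Kp_of_Kp b h h6 ?_
    rw [lie_sub]; exact h5.2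
  have : ⁅a, x⁆ - ⁅a * pr b T, y⁆ = ⁅a * (1 - pr b T), y⁆ + ⁅a * (1 - pr b S), x - y⁆ +
      ⁅a * pr b S, x - y⁆ := by
    rw [mul_sub, mul_sub, mul_one, sub_lie, sub_lie, lie_sub, lie_sub]
    abel
  rw [this]
  exact Submodule.add_mem _ (Submodule.add_mem _ h1 h2) h7

variable {b}

lemma Good.mem_Q {G : Submodule ℂ M} {x : M} (h : Good b G x) :
    ∃ S₀ : Finset ι, ∀ S, S₀ ⊆ S → x ∈ Q b M S := by
  obtain ⟨X, hX, S₀, -, h2⟩ := h
  refine ⟨S₀, fun S hS => ?_⟩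
  obtain ⟨y, -, hy, h3, -⟩ := h2 S hS
  exact ⟨y, hy, h3⟩

lemma Good.mem_of_GM {G : Submodule ℂ M} {x : M} (h : Good b G x) (hx : x ∈ GM b M) :
    x ∈ G := by
  classical
  obtain ⟨X, hX, S₀, -, h2⟩ := h
  obtain ⟨T, hT⟩ := hx
  obtain ⟨y, hyG, hy, h3, -⟩ := h2 (S₀ ∪ T) Finset.subset_union_left
  have : x = y := (Pr.refl (lie_g_of_Z b Finset.subset_union_right hT)).unique h3
  rwa [this]

/-- A `sl(V, V_*)`-submodule of `GM` is stable under finite rank operators. -/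
lemma lie_mem_of_FR [Infinite ι] (W : LieSubmodule ℂ (SL b) M) (hW : W ≤ GM b M)
    {a : Module.End ℂ V} (ha : FR b a) {y : M} (hy : y ∈ W) : ⁅a, y⁆ ∈ W := by
  obtain ⟨S, hS⟩ := hW hy
  obtain ⟨γ, hγ⟩ := Infinite.exists_notMem_finset S
  obtain ⟨r, hr⟩ := exists_sub_mem_sl b ha γ
  have h1 : ⁅(⟨a - r • rankOne b γ, hr⟩ : SL b), y⁆ ∈ W := W.lie_mem hy
  have h2 : ⁅(⟨a - r • rankOne b γ, hr⟩ : SL b), y⁆ = ⁅a, y⁆ := by
    change ⁅a - r • rankOne b γ, y⁆ = ⁅a, y⁆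
    rw [sub_lie, smul_lie, lie_rankOne_of_Z b hγ hS, smul_zero, sub_zero]
  rwa [h2] at h1

lemma sharp_lie_mem [Infinite ι] (hM : Nice b M) (W : LieSubmodule ℂ (SL b) M)
    (hW : W ≤ GM b M) (a : Module.End ℂ V) {x : M}
    (hx : ∃ S₀ : Finset ι, ∀ S, S₀ ⊆ S → ∃ y ∈ W, y ∈ Z b M S ∧ Pr (pr b S - 1) x y) :
    ∃ S₀ : Finset ι, ∀ S, S₀ ⊆ S → ∃ y ∈ W, y ∈ Z b M S ∧ Pr (pr b S - 1) ⁅a, x⁆ y := by
  classical
  obtain ⟨S₁, h1⟩ := hx
  obtain ⟨S₂, h2⟩ := (hM.good ⁅a, x⁆).mem_Q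
  refine ⟨S₁ ∪ S₂, fun S hS => ?_⟩
  have hxS : x ∈ Q b M S := by
    obtain ⟨y, -, hy⟩ := h1 S (Finset.union_subset_left hS)
    exact ⟨y, hy⟩
  have haxS := h2 S (Finset.union_subset_right hS)
  obtain ⟨z, hzZ, hz⟩ := haxS
  refine ⟨z, ?_, hzZ, hz⟩
  obtain ⟨S₃, h3⟩ := exists_pr_mul b a S
  have hST : S ⊆ S ∪ S₃ := Finset.subset_union_left
  have ha := h3 (S ∪ S₃) Finset.subset_union_right
  obtain ⟨y, hyW, hyZ, hy⟩ := h1 (S ∪ S₃) ((Finset.union_subset_left hS).trans hST)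
  have hmain := main_comp b hST ha hxS ⟨z, hzZ, hz⟩ hy
  have hz1 : ⁅a * pr b (S ∪ S₃), y⁆ ∈ W := lie_mem_of_FR W hW (FR_mul_pr b a _) hyW
  have hz2 : Pr (pr b S - 1) ⁅a * pr b (S ∪ S₃), y⁆ z := by
    refine ⟨hz.1, ?_⟩
    have := Submodule.sub_mem _ hz.2 hmain
    rwa [sub_sub_sub_cancel_left] at this
  obtain ⟨T', hT'⟩ := hW hz1
  have hT := Z_mono b (Finset.subset_union_right (s₁ := S)) hT'
  have hST' : S ⊆ S ∪ T' := Finset.subset_union_left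
  let N : Submodule ℂ M := (W : Submodule ℂ M) ⊓
    LinearMap.ker (LieModule.toEnd ℂ (Module.End ℂ V) M (pr b (S ∪ T') - 1))
  have hN : ∀ w ∈ N, ⁅pr b S - 1, w⁆ ∈ N := by
    rintro w ⟨hw1, hw2⟩
    rw [SetLike.mem_coe, LinearMap.mem_ker, LieModule.toEnd_apply_apply] at hw2
    refine ⟨?_, ?_⟩
    · have e : ⁅pr b S - 1, w⁆ = ⁅pr b S - pr b (S ∪ T'), w⁆ := by
        have : pr b S - 1 = (pr b S - pr b (S ∪ T')) + (pr b (S ∪ T') - 1) := by abel
        rw [this, add_lie, hw2, add_zero]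
      rw [e]
      exact lie_mem_of_FR W hW (FR_sub b (FR_pr b _) (FR_pr b _)) hw1
    · rw [SetLike.mem_coe, LinearMap.mem_ker, LieModule.toEnd_apply_apply,
        leibniz_lie (pr b (S ∪ T') - 1), hw2, lie_zero, add_zero, ← lie_skew, comm_g b hST',
        neg_zero, zero_lie]
  have hz3 : ⁅a * pr b (S ∪ S₃), y⁆ ∈ N := by
    refine ⟨hz1, ?_⟩
    rw [SetLike.mem_coe, LinearMap.mem_ker, LieModule.toEnd_apply_apply]
    exact lie_g_of_Z b (Finset.Subset.refl _) hT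
  exact (hz2.mem N hN hz3).1

/-- The `End(V)`-submodule of `M` attached to a `sl(V, V_*)`-submodule of `GM`. -/
def sharp [Infinite ι] (hM : Nice b M) (W : LieSubmodule ℂ (SL b) M) (hW : W ≤ GM b M) :
    LieSubmodule ℂ (Module.End ℂ V) M where
  carrier := {x | ∃ S₀ : Finset ι, ∀ S, S₀ ⊆ S → ∃ y ∈ W, y ∈ Z b M S ∧ Pr (pr b S - 1) x y}
  zero_mem' := ⟨∅, fun _ _ => ⟨0, W.zero_mem, Submodule.zero_mem _, Pr.zero _⟩⟩
  add_mem' := by
    classical
    rintro x x' ⟨S₀, h⟩ ⟨S₀', h'⟩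
    refine ⟨S₀ ∪ S₀', fun S hS => ?_⟩
    obtain ⟨y, hy1, hy2, hy3⟩ := h S (Finset.union_subset_left hS)
    obtain ⟨y', hy1', hy2', hy3'⟩ := h' S (Finset.union_subset_right hS)
    exact ⟨y + y', W.add_mem hy1 hy1', Submodule.add_mem _ hy2 hy2', hy3.add hy3'⟩
  smul_mem' := by
    rintro a x ⟨S₀, h⟩
    refine ⟨S₀, fun S hS => ?_⟩
    obtain ⟨y, hy1, hy2, hy3⟩ := h S hS
    exact ⟨a • y, W.smul_mem _ hy1, Submodule.smul_mem _ _ hy2, hy3.smul a⟩
  lie_mem := by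
    intro a x hx
    exact sharp_lie_mem hM W hW a hx

lemma mem_sharp [Infinite ι] {hM : Nice b M} {W : LieSubmodule ℂ (SL b) M} {hW : W ≤ GM b M}
    {x : M} : x ∈ sharp hM W hW ↔ ∃ S₀ : Finset ι, ∀ S, S₀ ⊆ S → ∃ y ∈ W, y ∈ Z b M S ∧
      Pr (pr b S - 1) x y := Iff.rfl

lemma mem_sharp_iff [Infinite ι] (hM : Nice b M) (W : LieSubmodule ℂ (SL b) M)
    (hW : W ≤ GM b M) {x : M} (hx : x ∈ GM b M) : x ∈ sharp hM W hW ↔ x ∈ W := by
  classical
  obtain ⟨S, hS⟩ := hx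
  constructor
  · rintro ⟨S₀, h⟩
    obtain ⟨y, hy1, hy2, hy3⟩ := h (S ∪ S₀) Finset.subset_union_right
    have : x = y := (Pr.refl (lie_g_of_Z b Finset.subset_union_left hS)).unique hy3
    rwa [this]
  · intro h
    exact ⟨S, fun T hT => ⟨x, h, Z_mono b hT hS, Pr.refl (lie_g_of_Z b hT hS)⟩⟩

/-- Existence of an idempotent with image `V_S` that fixes finitely many functionals. -/
lemma exists_idem [Infinite ι] (X : Set (Dual ℂ V)) (hX : X.Finite) (S₀ : Finset ι) :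
    ∃ S, S₀ ⊆ S ∧ ∃ u : Module.End ℂ V, u * pr b S = pr b S ∧ pr b S * u = u ∧
      ∀ φ ∈ X, φ ∘ₗ u = φ := by
  classical
  have : Nonempty ι := Infinite.nonempty ι
  have : Fintype X := hX.fintype
  let ev : V →ₗ[ℂ] (X → ℂ) := LinearMap.pi fun φ : X => (φ : Dual ℂ V)
  have hfg : (Submodule.span ℂ (Set.range fun i => ev (b i))).FG :=
    IsNoetherian.noetherian _
  obtain ⟨s, hs, hs'⟩ := (Submodule.fg_span_iff_fg_span_finset_subset _).1 hfg
  choose! g hg using fun x (hx : x ∈ (s : Set (X → ℂ))) => hs hx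
  have hsp : ∀ i, ev (b i) ∈ Submodule.span ℂ ((fun j => ev (b j)) ''
      ((S₀ ∪ s.image g : Finset ι) : Set ι)) := by
    intro i
    have h1 : ev (b i) ∈ Submodule.span ℂ (Set.range fun i => ev (b i)) :=
      Submodule.subset_span ⟨i, rfl⟩
    rw [hs'] at h1
    refine Submodule.span_mono ?_ h1
    intro x hx
    refine ⟨g x, ?_, hg x hx⟩
    simp only [Finset.coe_union, Finset.coe_image]
    exact Or.inr ⟨x, hx, rfl⟩
  refine ⟨S₀ ∪ s.image g, Finset.subset_union_left, ?_⟩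
  set S := S₀ ∪ s.image g with hSdef
  have h2 : ∀ i, ∃ v : V, pr b S v = v ∧ ev v = ev (b i) := by
    intro i
    have h3 : Submodule.span ℂ ((fun j => ev (b j)) '' (S : Set ι)) ≤
        (LinearMap.ker (pr b S - 1)).map ev := by
      refine Submodule.span_le.mpr ?_
      rintro _ ⟨j, hj, rfl⟩
      refine ⟨b j, ?_, rfl⟩
      rw [SetLike.mem_coe, LinearMap.mem_ker, LinearMap.sub_apply, pr_basis,
        if_pos (by exact_mod_cast hj)]
      simp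
    obtain ⟨v, hv, hv'⟩ := h3 (hsp i)
    rw [SetLike.mem_coe, LinearMap.mem_ker, LinearMap.sub_apply, sub_eq_zero] at hv
    exact ⟨v, hv, hv'⟩
  choose v hv hv' using h2
  refine ⟨b.constr ℂ fun i => if i ∈ S then b i else v i, ?_, ?_, ?_⟩
  · refine b.ext fun i => ?_
    rw [Module.End.mul_apply, pr_basis]
    split_ifs with h
    · rw [b.constr_basis, if_pos h]
    · rw [map_zero]
  · refine b.ext fun i => ?_
    rw [Module.End.mul_apply, b.constr_basis]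
    split_ifs with h
    · rw [pr_basis, if_pos h]
    · exact hv i
  · intro φ hφ
    refine b.ext fun i => ?_
    rw [LinearMap.comp_apply, b.constr_basis]
    split_ifs with h
    · rfl
    · have := congrFun (hv' i) ⟨φ, hφ⟩
      exact this

/-- An `End(V)`-submodule is determined by its intersection with `GM`. -/
lemma sharp_inf [Infinite ι] (hM : Nice b M) (N : LieSubmodule ℂ (Module.End ℂ V) M)
    (W : LieSubmodule ℂ (SL b) M) (hW : W ≤ GM b M) (hWN : ∀ x ∈ GM b M, x ∈ W ↔ x ∈ N) :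
    sharp hM W hW = N := by
  classical
  ext x
  constructor
  · rintro ⟨S₁, h1⟩
    obtain ⟨X, hX, S₀, -, h2⟩ := hM.good x
    obtain ⟨S, hS, u, hu1, hu2, hu3⟩ := exists_idem (b := b) X hX (S₀ ∪ S₁)
    obtain ⟨y, hy1, hy2, hy3⟩ := h1 S (Finset.union_subset_right hS)
    obtain ⟨y', -, hy2', hy3', h4⟩ := h2 S (Finset.union_subset_left hS)
    have e : y = y' := hy3.unique hy3'
    subst e
    have h5 := h4 u hu1 hu2 hu3
    have hyN : y ∈ N := (hWN y ⟨S, hy2⟩).1 hy1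
    exact h5.mem N.toSubmodule (fun z hz => N.lie_mem hz) hyN
  · intro hx
    obtain ⟨X, hX, S₀, -, h2⟩ := hM.good x
    refine ⟨S₀, fun S hS => ?_⟩
    obtain ⟨y, -, hy2, hy3, -⟩ := h2 S hS
    have hyN : y ∈ N := hy3.mem N.toSubmodule (fun z hz => N.lie_mem hz) hx
    exact ⟨y, (hWN y ⟨S, hy2⟩).2 hyN, hy2, hy3⟩

/-- The part of an `End(V)`-submodule in `GM`. -/
def flat (N : LieSubmodule ℂ (Module.End ℂ V) M) : LieSubmodule ℂ (SL b) M where
  toSubmodule := N.toSubmodule ⊓ (GM b M).toSubmodule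
  lie_mem := by
    rintro a x ⟨h1, h2⟩
    exact ⟨N.lie_mem (x := (a : Module.End ℂ V)) h1, (GM b M).lie_mem h2⟩

lemma mem_flat {N : LieSubmodule ℂ (Module.End ℂ V) M} {x : M} :
    x ∈ flat (b := b) N ↔ x ∈ N ∧ x ∈ GM b M := Iff.rfl

lemma flat_le (N : LieSubmodule ℂ (Module.End ℂ V) M) : flat (b := b) N ≤ GM b M :=
  fun _ h => h.2

lemma sharp_flat [Infinite ι] (hM : Nice b M) (N : LieSubmodule ℂ (Module.End ℂ V) M) :
    sharp hM (flat N) (flat_le N) = N :=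
  sharp_inf hM N _ _ fun _ hx => ⟨fun h => h.1, fun h => ⟨h, hx⟩⟩

lemma le_of_flat_le [Infinite ι] (hM : Nice b M) {N N' : LieSubmodule ℂ (Module.End ℂ V) M}
    (h : ∀ x ∈ GM b M, x ∈ N → x ∈ N') : N ≤ N' := by
  rw [← sharp_flat hM N, ← sharp_flat hM N']
  rintro x ⟨S₀, h1⟩
  refine ⟨S₀, fun S hS => ?_⟩
  obtain ⟨y, hy1, hy2, hy3⟩ := h1 S hS
  exact ⟨y, ⟨h y hy1.2 hy1.1, hy1.2⟩, hy2, hy3⟩

lemma eq_top_of_GM [Infinite ι] (hM : Nice b M) {N : LieSubmodule ℂ (Module.End ℂ V) M}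
    (h : ∀ x ∈ GM b M, x ∈ N) : N = ⊤ :=
  top_le_iff.1 (le_of_flat_le hM fun x hx _ => h x hx)

lemma eq_bot_of_GM [Infinite ι] (hM : Nice b M) {N : LieSubmodule ℂ (Module.End ℂ V) M}
    (h : ∀ x ∈ GM b M, x ∈ N → x = 0) : N = ⊥ :=
  le_bot_iff.1 (le_of_flat_le hM fun x hx hx' => by
    rw [h x hx hx']; exact LieSubmodule.zero_mem _)

end

end K4H17.WF
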