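import Pool.Agent.K4H17.WF.Mod

/-! # Definitions: `sl(V, V_*)`, the categories of tensor modules, the weight functor -/

namespace K4H17.WF

open Module TensorProduct

set_option linter.unusedSectionVars false

noncomputable section

/-- The Lie algebra structure on `End(V)`: `[a, c] = a c - c a`. -/
instance instLieRingEnd (V : Type*) [AddCommGroup V] [Module ℂ V] :
    LieRing (Module.End ℂ V) := LieRing.ofAssociativeRing

section general

/-- `M` is (isomorphic to) a subquotient of `P`: some submodule `N` of `P` surjects onto `M`. -/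
def IsSubquotient (L P M : Type*) [LieRing L] [LieAlgebra ℂ L]
    [AddCommGroup P] [Module ℂ P] [LieRingModule L P] [LieModule ℂ L P]
    [AddCommGroup M] [Module ℂ M] [LieRingModule L M] [LieModule ℂ L M] : Prop :=
  ∃ (N : LieSubmodule ℂ L P) (f : N →ₗ⁅ℂ,L⁆ M), Function.Surjective f

/-- The `L`-module `M` has finite length: both chain conditions hold for its submodules. -/
def FiniteLength (L M : Type*) [LieRing L] [LieAlgebra ℂ L]
    [AddCommGroup M] [Module ℂ M] [LieRingModule L M] [LieModule ℂ L M] : Prop :=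
  WellFoundedLT (LieSubmodule ℂ L M) ∧ WellFoundedGT (LieSubmodule ℂ L M)

/-- `M` is a finite-length subquotient of a finite direct sum of copies of the tensor algebra
`T(R)` of the `L`-module `R`. -/
def IsTensorModule (L R M : Type*) [LieRing L] [LieAlgebra ℂ L]
    [AddCommGroup R] [Module ℂ R] [LieRingModule L R] [LieModule ℂ L R]
    [AddCommGroup M] [Module ℂ M] [LieRingModule L M] [LieModule ℂ L M] : Prop :=
  (∃ n : ℕ, IsSubquotient L (Fin n → TensorAlgebra ℂ R) M) ∧ FiniteLength L M

end general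

section sl

variable {ι V : Type*} [AddCommGroup V] [Module ℂ V] (b : Basis ι ℂ V)

/-- `V_*`, the span of the dual vectors `v_γ^*` of the basis `b`. -/
def dualSpan : Submodule ℂ (Dual ℂ V) := Submodule.span ℂ (Set.range b.coord)

/-- `V_* ⊗ V` as a subspace of `V^* ⊗ V`. -/
def tensorSpan : Submodule ℂ (Dual ℂ V ⊗[ℂ] V) :=
  LinearMap.range (LinearMap.rTensor V (dualSpan b).subtype)

lemma comp_dualTensorHom (a : Module.End ℂ V) (t : Dual ℂ V ⊗[ℂ] V) :
    a * dualTensorHom ℂ V V t = dualTensorHom ℂ V V (LinearMap.lTensor (Dual ℂ V) a t) := by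
  induction t using TensorProduct.induction_on with
  | zero => simp
  | tmul φ v => ext x; simp [Module.End.mul_apply]
  | add x y hx hy => rw [map_add, mul_add, hx, hy, map_add, map_add]

lemma contract_symm (t t' : Dual ℂ V ⊗[ℂ] V) :
    contractLeft ℂ V (LinearMap.lTensor (Dual ℂ V) (dualTensorHom ℂ V V t) t') =
    contractLeft ℂ V (LinearMap.lTensor (Dual ℂ V) (dualTensorHom ℂ V V t') t) := by
  induction t using TensorProduct.induction_on with
  | zero => simp
  | tmul φ v =>
    induction t' using TensorProduct.induction_on with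
    | zero => simp
    | tmul ψ u => simp [mul_comm]
    | add x y hx hy =>
      rw [map_add, map_add, hx, hy, map_add, LinearMap.lTensor_add, LinearMap.add_apply, map_add]
  | add x y hx hy =>
    rw [map_add, map_add, map_add, ← hx, ← hy, LinearMap.lTensor_add, LinearMap.add_apply,
      map_add]

lemma lTensor_mem (a : Module.End ℂ V) {t : Dual ℂ V ⊗[ℂ] V} (ht : t ∈ tensorSpan b) :
    LinearMap.lTensor (Dual ℂ V) a t ∈ tensorSpan b := by
  obtain ⟨s, rfl⟩ := ht
  refine ⟨LinearMap.lTensor _ a s, ?_⟩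
  rw [← LinearMap.comp_apply, ← LinearMap.comp_apply, LinearMap.rTensor_comp_lTensor,
    LinearMap.lTensor_comp_rTensor]

/-- The image in `End(V)` of the space of the traceless elements of `V_* ⊗ V`. -/
def slSpace : Submodule ℂ (Module.End ℂ V) :=
  (tensorSpan b ⊓ LinearMap.ker (contractLeft ℂ V)).map (dualTensorHom ℂ V V)

lemma lie_mem_slSpace {a c : Module.End ℂ V} (ha : a ∈ slSpace b) (hc : c ∈ slSpace b) :
    ⁅a, c⁆ ∈ slSpace b := by
  obtain ⟨t, ⟨ht, ht'⟩, rfl⟩ := ha
  obtain ⟨s, ⟨hs, hs'⟩, rfl⟩ := hc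
  refine ⟨LinearMap.lTensor (Dual ℂ V) (dualTensorHom ℂ V V t) s -
    LinearMap.lTensor (Dual ℂ V) (dualTensorHom ℂ V V s) t, ⟨?_, ?_⟩, ?_⟩
  · exact (tensorSpan b).sub_mem (lTensor_mem b _ hs) (lTensor_mem b _ ht)
  · rw [SetLike.mem_coe, LinearMap.mem_ker, map_sub, contract_symm, sub_self]
  · rw [map_sub, ← comp_dualTensorHom, ← comp_dualTensorHom, Ring.lie_def]

/-- The Lie algebra `sl(V, V_*)`: the traceless elements of `V_* ⊗ V`, acting on `V` as operators
of finite rank. -/
def sl : LieSubalgebra ℂ (Module.End ℂ V) :=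
  { slSpace b with lie_mem' := fun ha hc => lie_mem_slSpace b ha hc }

lemma mem_sl {a : Module.End ℂ V} : a ∈ sl b ↔ ∃ t : Dual ℂ V ⊗[ℂ] V, t ∈ tensorSpan b ∧
    contractLeft ℂ V t = 0 ∧ dualTensorHom ℂ V V t = a := by
  change a ∈ (tensorSpan b ⊓ LinearMap.ker (contractLeft ℂ V)).map (dualTensorHom ℂ V V) ↔ _
  simp only [Submodule.mem_map, Submodule.mem_inf, LinearMap.mem_ker, and_assoc]

/-- The Lie algebra `sl(V, V_*)`, as a type. -/
abbrev SL : Type _ := sl b

instance instLieRingSL : LieRing (SL b) := LieSubalgebra.lieRing ℂ (Module.End ℂ V) (sl b)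

instance instLieAlgebraSL : LieAlgebra ℂ (SL b) :=
  LieSubalgebra.lieAlgebra ℂ (Module.End ℂ V) (sl b)

/-- Every module over `End(V)` is a module over `sl(V, V_*)`, by restriction. -/
instance instLieRingModuleSL (M : Type*) [AddCommGroup M] [LieRingModule (Module.End ℂ V) M] :
    LieRingModule (SL b) M := (sl b).lieRingModule

instance instLieModuleSL (M : Type*) [AddCommGroup M] [Module ℂ M]
    [LieRingModule (Module.End ℂ V) M] [LieModule ℂ (Module.End ℂ V) M] :
    LieModule ℂ (SL b) M := (sl b).lieModule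

lemma comp_mem_dualSpan {t : Dual ℂ V ⊗[ℂ] V} (ht : t ∈ tensorSpan b) (φ : Dual ℂ V) :
    φ ∘ₗ dualTensorHom ℂ V V t ∈ dualSpan b := by
  obtain ⟨s, rfl⟩ := ht
  induction s using TensorProduct.induction_on with
  | zero => simp
  | tmul ψ v =>
    have : φ ∘ₗ dualTensorHom ℂ V V (LinearMap.rTensor V (dualSpan b).subtype (ψ ⊗ₜ v)) =
        φ v • (ψ : Dual ℂ V) := by
      ext x; simp [mul_comm]
    rw [this]
    exact (dualSpan b).smul_mem _ ψ.2
  | add x y hx hy =>
    rw [map_add, map_add, LinearMap.comp_add]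
    exact (dualSpan b).add_mem hx hy

/-- `V_*` as a `sl(V, V_*)`-submodule of `V^*`. -/
def dualMod : LieSubmodule ℂ (SL b) (Dual ℂ V) where
  toSubmodule := dualSpan b
  lie_mem := by
    rintro ⟨a, ha⟩ φ hφ
    obtain ⟨t, ht, -, rfl⟩ := (mem_sl b).1 ha
    have : (⁅(⟨dualTensorHom ℂ V V t, ha⟩ : SL b), φ⁆ : Dual ℂ V) =
        - (φ ∘ₗ dualTensorHom ℂ V V t) := by
      ext x
      rfl
    change ⁅(⟨dualTensorHom ℂ V V t, ha⟩ : SL b), φ⁆ ∈ dualSpan b
    rw [this]
    exact (dualSpan b).neg_mem (comp_mem_dualSpan b ht φ)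

/-- The `sl(V, V_*)`-module `V_*`, as a type. -/
abbrev VStar : Type _ := dualMod b

instance instAddCommGroupVStar : AddCommGroup (VStar b) := inferInstance

instance instModuleVStar : Module ℂ (VStar b) := inferInstance

instance instLieRingModuleVStar : LieRingModule (SL b) (VStar b) := inferInstance

instance instLieModuleVStar : LieModule ℂ (SL b) (VStar b) := inferInstance

end sl

section weights

variable {ι V : Type*} [AddCommGroup V] [Module ℂ V] (b : Basis ι ℂ V)

/-- The rank one operator `w_γ ⊗ w_γ^*` of a basis `w`. -/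
def rankOne (w : Basis ι ℂ V) (γ : ι) : Module.End ℂ V := (w.coord γ).smulRight (w γ)

/-- The span in `sl(V, V_*)` of the `w_γ ⊗ w_γ^* - w_δ ⊗ w_δ^*`; a local Cartan subalgebra if the
dual vectors of the basis `w` span `V_*`. -/
def cartan (w : Basis ι ℂ V) : Submodule ℂ (SL b) :=
  Submodule.span ℂ {h | ∃ γ δ : ι, (h : Module.End ℂ V) = rankOne w γ - rankOne w δ}

/-- The local Cartan subalgebra of the basis `w`, as a type. -/
abbrev CartanT (w : Basis ι ℂ V) : Type _ := cartan b w

instance instAddCommGroupCartanT (w : Basis ι ℂ V) : AddCommGroup (CartanT b w) := inferInstance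

instance instModuleCartanT (w : Basis ι ℂ V) : Module ℂ (CartanT b w) := inferInstance

variable (M : Type*) [AddCommGroup M] [Module ℂ M] [LieRingModule (SL b) M]
  [LieModule ℂ (SL b) M]

/-- The weight space `M^λ = {m | h · m = λ(h) m for all h ∈ 𝔥}` for the local Cartan
subalgebra `𝔥` of the basis `w`. -/
def weightSpace (w : Basis ι ℂ V) (lam : Dual ℂ (CartanT b w)) : Submodule ℂ M :=
  ⨅ h : CartanT b w, (LieModule.toEnd ℂ (SL b) M h).eigenspace (lam h)

lemma mem_weightSpace {w : Basis ι ℂ V} {lam : Dual ℂ (CartanT b w)} {m : M} :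
    m ∈ weightSpace b M w lam ↔ ∀ h : CartanT b w, ⁅(h : SL b), m⁆ = lam h • m := by
  rw [weightSpace, Submodule.mem_iInf]
  exact forall_congr' fun h => Module.End.mem_eigenspace_iff

/-- `Γ^wt_𝔥(M)`, the sum of the weight spaces, `𝔥` the local Cartan subalgebra of the
basis `w`. -/
def GammaCartan (w : Basis ι ℂ V) : Submodule ℂ M :=
  ⨆ lam : Dual ℂ (CartanT b w), weightSpace b M w lam

/-- `Γ^wt_𝔤(M)`, the intersection of the `Γ^wt_𝔥(M)` over all local Cartan subalgebras `𝔥` of
`𝔤 = sl(V, V_*)`. -/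
def Gamma : Submodule ℂ M :=
  ⨅ (w : Basis ι ℂ V) (_ : Submodule.span ℂ (Set.range w.coord) = dualSpan b), GammaCartan b M w

/-- `Γ^wt_𝔤(M)` as a `𝔤`-submodule of `M`: the `𝔤`-submodule of `M` generated by the subspace
`Γ^wt_𝔤(M)` (they are equal if `Γ^wt_𝔤(M)` is stable under `𝔤`). -/
def GammaMod : LieSubmodule ℂ (SL b) M := LieSubmodule.lieSpan ℂ (SL b) (Gamma b M : Set M)

/-- The `𝔤`-module `Γ^wt_𝔤(M)`, as a type. -/
abbrev GammaT : Type _ := GammaMod b M

instance instAddCommGroupGammaT : AddCommGroup (GammaT b M) := inferInstance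

instance instModuleGammaT : Module ℂ (GammaT b M) := inferInstance

instance instLieRingModuleGammaT : LieRingModule (SL b) (GammaT b M) := inferInstance

instance instLieModuleGammaT : LieModule ℂ (SL b) (GammaT b M) := inferInstance

end weights

end

end K4H17.WF
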