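import Mathlib

/-! # Sums of eigenvectors of an element of a Lie algebra acting on a module -/

namespace K4H17.WF

open Module

set_option linter.unusedSectionVars false

section

variable {L : Type*} [LieRing L] [LieAlgebra ℂ L]
variable {M : Type*} [AddCommGroup M] [Module ℂ M] [LieRingModule L M] [LieModule ℂ L M]
variable {M' : Type*} [AddCommGroup M'] [Module ℂ M'] [LieRingModule L M'] [LieModule ℂ L M']
variable {M'' : Type*} [AddCommGroup M''] [Module ℂ M''] [LieRingModule L M'']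
  [LieModule ℂ L M'']

/-- Sums of eigenvectors of `c` in `M` with eigenvalues in `K`. -/
def Eig (M : Type*) [AddCommGroup M] [Module ℂ M] [LieRingModule L M] (c : L) (K : Set ℂ) :
    Submodule ℂ M :=
  Submodule.span ℂ {y | ∃ l ∈ K, ⁅c, y⁆ = l • y}

/-- non-negative integers -/
def Kn : Set ℂ := {l | ∃ k : ℕ, l = k}

/-- positive integers -/
def Kp : Set ℂ := {l | ∃ k : ℕ, 1 ≤ k ∧ l = k}

/-- integers -/
def Kz : Set ℂ := {l | ∃ k : ℤ, l = k}

lemma Kp_sub_Kn : Kp ⊆ Kn := fun _ ⟨k, _, h⟩ => ⟨k, h⟩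

lemma zero_mem_Kn : (0 : ℂ) ∈ Kn := ⟨0, by simp⟩

lemma zero_mem_Kz : (0 : ℂ) ∈ Kz := ⟨0, by simp⟩

lemma one_mem_Kp : (1 : ℂ) ∈ Kp := ⟨1, le_rfl, by simp⟩

lemma one_mem_Kn : (1 : ℂ) ∈ Kn := ⟨1, by simp⟩

lemma zero_not_mem_Kp : (0 : ℂ) ∉ Kp := by
  rintro ⟨k, hk, h⟩
  have : (k : ℂ) = 0 := h.symm
  rw [Nat.cast_eq_zero] at this
  omega

lemma Kp_add_Kn {a b : ℂ} (ha : a ∈ Kp) (hb : b ∈ Kn) : a + b ∈ Kp := by
  obtain ⟨k, hk, rfl⟩ := ha
  obtain ⟨l, rfl⟩ := hb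
  exact ⟨k + l, by omega, by push_cast; ring⟩

lemma Kn_add_Kp {a b : ℂ} (ha : a ∈ Kn) (hb : b ∈ Kp) : a + b ∈ Kp := by
  rw [add_comm]; exact Kp_add_Kn hb ha

lemma Kn_add_Kn {a b : ℂ} (ha : a ∈ Kn) (hb : b ∈ Kn) : a + b ∈ Kn := by
  obtain ⟨k, rfl⟩ := ha
  obtain ⟨l, rfl⟩ := hb
  exact ⟨k + l, by push_cast; ring⟩

lemma Kz_add_Kz {a b : ℂ} (ha : a ∈ Kz) (hb : b ∈ Kz) : a + b ∈ Kz := by
  obtain ⟨k, rfl⟩ := ha
  obtain ⟨l, rfl⟩ := hb
  exact ⟨k + l, by push_cast; ring⟩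

lemma mem_Eig {c : L} {K : Set ℂ} {y : M} {l : ℂ} (hl : l ∈ K) (h : ⁅c, y⁆ = l • y) :
    y ∈ Eig M c K := Submodule.subset_span ⟨l, hl, h⟩

lemma mem_Eig_zero {c : L} {K : Set ℂ} {y : M} (hl : (0 : ℂ) ∈ K) (h : ⁅c, y⁆ = 0) :
    y ∈ Eig M c K := mem_Eig hl (by rw [h, zero_smul])

lemma mem_Eig_one {c : L} {K : Set ℂ} {y : M} (hl : (1 : ℂ) ∈ K) (h : ⁅c, y⁆ = y) :
    y ∈ Eig M c K := mem_Eig hl (by rw [h, one_smul])

lemma Eig_mono {c : L} {K K' : Set ℂ} (h : K ⊆ K') : Eig M c K ≤ Eig M c K' :=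
  Submodule.span_mono fun _ ⟨l, hl, e⟩ => ⟨l, h hl, e⟩

lemma exists_finsupp {c : L} {K : Set ℂ} {x : M} (hx : x ∈ Eig M c K) :
    ∃ f : ℂ →₀ M, (∀ l, ⁅c, f l⁆ = l • f l) ∧ (∀ l, f l ≠ 0 → l ∈ K) ∧
      f.sum (fun _ y => y) = x := by
  classical
  refine Submodule.span_induction (p := fun x _ => ∃ f : ℂ →₀ M, (∀ l, ⁅c, f l⁆ = l • f l) ∧
    (∀ l, f l ≠ 0 → l ∈ K) ∧ f.sum (fun _ y => y) = x) ?_ ?_ ?_ ?_ hx
  · rintro x ⟨l, hl, h⟩
    refine ⟨Finsupp.single l x, ?_, ?_, ?_⟩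
    · intro m
      rw [Finsupp.single_apply]
      split_ifs with hm
      · subst hm; exact h
      · simp
    · intro m hm
      rw [Finsupp.single_apply] at hm
      split_ifs at hm with h1
      · subst h1; exact hl
      · exact absurd rfl hm
    · simp
  · exact ⟨0, by simp, by simp, by simp⟩
  · rintro x y _ _ ⟨f, hf, hf', rfl⟩ ⟨g, hg, hg', rfl⟩
    refine ⟨f + g, ?_, ?_, ?_⟩
    · intro l
      simp [hf l, hg l]
    · intro l hl
      by_contra h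
      have h1 : f l = 0 := by by_contra h2; exact h (hf' l h2)
      have h2 : g l = 0 := by by_contra h2; exact h (hg' l h2)
      apply hl
      simp [h1, h2]
    · exact Finsupp.sum_add_index' (by simp) (by simp)
  · rintro a x _ ⟨f, hf, hf', rfl⟩
    refine ⟨a • f, ?_, ?_, ?_⟩
    · intro l
      rw [Finsupp.smul_apply, lie_smul, hf l, smul_comm]
    · intro l hl
      apply hf' l
      intro h
      apply hl
      simp [h]
    · rw [Finsupp.sum_smul_index' (by simp), Finsupp.smul_sum]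

lemma comp_mem_aux {c : L} (N : Submodule ℂ M) (hN : ∀ y ∈ N, ⁅c, y⁆ ∈ N) (F : Finset ℂ) :
    ∀ (y : ℂ → M), (∀ l ∈ F, ⁅c, y l⁆ = l • y l) → (∑ l ∈ F, y l) ∈ N → ∀ l ∈ F, y l ∈ N := by
  classical
  induction F using Finset.induction_on with
  | empty => intro y _ _ l hl; simp at hl
  | insert m F hm ih =>
    intro y hy hs
    have h1 : ⁅c, ∑ l ∈ insert m F, y l⁆ - m • ∑ l ∈ insert m F, y l ∈ N :=
      N.sub_mem (hN _ hs) (N.smul_mem _ hs)
    have h2 : ⁅c, ∑ l ∈ insert m F, y l⁆ - m • ∑ l ∈ insert m F, y l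
        = ∑ l ∈ F, (l - m) • y l := by
      rw [Finset.sum_insert hm, lie_add, hy m (Finset.mem_insert_self _ _), smul_add]
      have : ⁅c, ∑ l ∈ F, y l⁆ = ∑ l ∈ F, l • y l := by
        have e := map_sum (LieModule.toEnd ℂ L M c) y F
        simp only [LieModule.toEnd_apply_apply] at e
        rw [e]
        exact Finset.sum_congr rfl fun l hl => hy l (Finset.mem_insert_of_mem hl)
      rw [this, Finset.smul_sum, add_sub_add_left_eq_sub, ← Finset.sum_sub_distrib]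
      exact Finset.sum_congr rfl fun l _ => by rw [sub_smul]
    rw [h2] at h1
    have h3 := ih (fun l => (l - m) • y l) (fun l hl => by
      rw [lie_smul, hy l (Finset.mem_insert_of_mem hl), smul_comm]) h1
    have h4 : ∀ l ∈ F, y l ∈ N := by
      intro l hl
      have hlm : l - m ≠ 0 := sub_ne_zero.mpr (by rintro rfl; exact hm hl)
      have := N.smul_mem (l - m)⁻¹ (h3 l hl)
      rwa [smul_smul, inv_mul_cancel₀ hlm, one_smul] at this
    intro l hl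
    rw [Finset.mem_insert] at hl
    rcases hl with rfl | hl
    · rw [Finset.sum_insert hm] at hs
      have := N.sub_mem hs (N.sum_mem h4)
      rwa [add_sub_cancel_right] at this
    · exact h4 l hl

lemma comp_mem {c : L} (N : Submodule ℂ M) (hN : ∀ y ∈ N, ⁅c, y⁆ ∈ N) (f : ℂ →₀ M)
    (hf : ∀ l, ⁅c, f l⁆ = l • f l) (hs : f.sum (fun _ y => y) ∈ N) (l : ℂ) : f l ∈ N := by
  by_cases h : l ∈ f.support
  · exact comp_mem_aux N hN f.support f (fun l _ => hf l) hs l h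
  · rw [Finsupp.notMem_support_iff.mp h]; exact N.zero_mem

/-- If `x` lies in a `c`-stable subspace and is a sum of eigenvectors, it is a sum of eigenvectors
that lie in the subspace. -/
lemma eig_inf {c : L} {K : Set ℂ} (N : Submodule ℂ M) (hN : ∀ y ∈ N, ⁅c, y⁆ ∈ N) {x : M}
    (hx : x ∈ N) (hx' : x ∈ Eig M c K) :
    x ∈ Submodule.span ℂ {y | y ∈ N ∧ ∃ l ∈ K, ⁅c, y⁆ = l • y} := by
  obtain ⟨f, hf, hf', rfl⟩ := exists_finsupp hx'
  refine Submodule.sum_mem _ fun l hl => Submodule.subset_span ⟨?_, l, ?_, hf l⟩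
  · exact comp_mem N hN f hf hx l
  · exact hf' l (Finsupp.mem_support_iff.mp hl)

lemma eig_disjoint {c : L} {K K' : Set ℂ} {x : M} (hx : x ∈ Eig M c K) (hx' : x ∈ Eig M c K')
    (h : ∀ l ∈ K, l ∉ K') : x = 0 := by
  classical
  obtain ⟨f, hf, hf', rfl⟩ := exists_finsupp hx
  obtain ⟨g, hg, hg', e⟩ := exists_finsupp hx'
  have h1 : ∀ l, (f - g) l ∈ (⊥ : Submodule ℂ M) := by
    refine comp_mem (c := c) ⊥ ?_ (f - g) ?_ ?_
    · intro y hy
      rw [Submodule.mem_bot] at hy ⊢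
      rw [hy, lie_zero]
    · intro l
      rw [Finsupp.sub_apply, lie_sub, hf, hg, smul_sub]
    · rw [Finsupp.sum_sub_index (by simp), e, sub_self]
      exact Submodule.zero_mem _
  have h2 : f = 0 := by
    ext l
    by_contra h3
    have h4 : l ∈ K := hf' l h3
    have h5 : g l = 0 := by
      by_contra h6
      exact h l h4 (hg' l h6)
    have := h1 l
    rw [Submodule.mem_bot, Finsupp.sub_apply, h5, sub_zero] at this
    exact h3 this
  rw [h2]; simp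

lemma eq_zero_of_Kp {c : L} {x : M} (h0 : ⁅c, x⁆ = 0) (hx : x ∈ Eig M c Kp) : x = 0 :=
  eig_disjoint (K := {0}) (mem_Eig_zero rfl h0) hx (by
    rintro l rfl; exact zero_not_mem_Kp)

/-- the eigenvalue of a non-zero eigenvector which is a sum of eigenvectors with eigenvalues in
`K` lies in `K` -/
lemma mem_of_eig {c : L} {K : Set ℂ} {x : M} {l : ℂ} (h0 : ⁅c, x⁆ = l • x) (hx : x ∈ Eig M c K)
    (hne : x ≠ 0) : l ∈ K := by
  by_contra h
  exact hne (eig_disjoint (K := {l}) (mem_Eig rfl h0) hx (by rintro _ rfl; exact h))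

/-- the `0`-component of `x` lies in every `c`-stable subspace containing `x` -/
lemma zero_comp_mem {c : L} (N : Submodule ℂ M) (hN : ∀ y ∈ N, ⁅c, y⁆ ∈ N) {x y : M}
    (hx : x ∈ N) (hy : ⁅c, y⁆ = 0) (hp : x - y ∈ Eig M c Kp) : y ∈ N := by
  classical
  obtain ⟨f, hf, hf', e⟩ := exists_finsupp hp
  have h0 : f 0 = 0 := by
    by_contra h; exact zero_not_mem_Kp (hf' 0 h)
  have := comp_mem N hN (f + Finsupp.single 0 y) (by
    intro l
    rw [Finsupp.add_apply, lie_add, hf, smul_add, Finsupp.single_apply]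
    split_ifs with h
    · subst h; rw [hy]; simp
    · simp) (by
    rw [Finsupp.sum_add_index' (by simp) (by simp), e, Finsupp.sum_single_index rfl]
    simpa using hx) 0
  rwa [Finsupp.add_apply, h0, zero_add, Finsupp.single_eq_same] at this

lemma Eig_mem_of_comm {c : L} {K K' : Set ℂ} (T : M →ₗ[ℂ] M')
    (h : ∀ y : M, ∀ l ∈ K, ⁅c, y⁆ = l • y → T y ∈ Eig M' c K') {x : M} (hx : x ∈ Eig M c K) :
    T x ∈ Eig M' c K' := by
  have : Eig M c K ≤ (Eig M' c K').comap T := by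
    refine Submodule.span_le.mpr ?_
    rintro y ⟨l, hl, e⟩
    exact h y l hl e
  exact this hx

lemma Eig_bilin {c : L} {K K' K'' : Set ℂ} (B : M →ₗ[ℂ] M' →ₗ[ℂ] M'')
    (hB : ∀ x y, ⁅c, B x y⁆ = B ⁅c, x⁆ y + B x ⁅c, y⁆)
    (hK : ∀ a ∈ K, ∀ b ∈ K', a + b ∈ K'') {x : M} {y : M'}
    (hx : x ∈ Eig M c K) (hy : y ∈ Eig M' c K') : B x y ∈ Eig M'' c K'' := by
  have h1 : B x y ∈ Submodule.map₂ B (Eig M c K) (Eig M' c K') :=
    Submodule.apply_mem_map₂ _ hx hy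
  rw [Eig, Eig, Submodule.map₂_span_span] at h1
  refine Submodule.span_le.mpr ?_ h1
  rintro _ ⟨x, ⟨l, hl, hx⟩, y, ⟨m, hm, hy⟩, rfl⟩
  refine mem_Eig (hK l hl m hm) ?_
  rw [hB, hx, hy]
  simp [add_smul]

lemma Eig_hom {c : L} {K : Set ℂ} (f : M →ₗ[ℂ] M') (hf : ∀ x, f ⁅c, x⁆ = ⁅c, f x⁆) {x : M}
    (hx : x ∈ Eig M c K) : f x ∈ Eig M' c K := by
  refine Eig_mem_of_comm f ?_ hx
  intro y l hl e
  refine mem_Eig hl ?_
  rw [← hf, e, map_smul]

/-- If `x ∈ N`, `x` is a sum of eigenvectors of `c` and `N` is a Lie submodule, the same holds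
inside `N`. -/
lemma Eig_sub {c : L} {K : Set ℂ} (N : LieSubmodule ℂ L M) (x : N)
    (hx : (x : M) ∈ Eig M c K) : x ∈ Eig N c K := by
  have h := eig_inf (c := c) (N : Submodule ℂ M) (fun y hy => N.lie_mem hy) x.2 hx
  have h2 : (x : M) ∈ (Eig N c K).map (N.incl : N →ₗ[ℂ] M) := by
    refine Submodule.span_le.mpr ?_ h
    rintro y ⟨hy, l, hl, e⟩
    refine ⟨⟨y, hy⟩, mem_Eig hl ?_, rfl⟩
    exact Subtype.ext e
  obtain ⟨y, hy, e⟩ := h2
  have : y = x := Subtype.ext e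
  rwa [← this]

/-- `y` is the `0`-component of `x` with respect to `c`, all eigenvalues of `c` on `x` being
non-negative integers. -/
def Pr (c : L) (x y : M) : Prop := ⁅c, y⁆ = 0 ∧ x - y ∈ Eig M c Kp

lemma Pr.zero (c : L) : Pr c (0 : M) 0 := ⟨lie_zero c, by simp⟩

lemma Pr.refl {c : L} {x : M} (h : ⁅c, x⁆ = 0) : Pr c x x := ⟨h, by simp⟩

lemma Pr.add {c : L} {x y x' y' : M} (h : Pr c x y) (h' : Pr c x' y') :
    Pr c (x + x') (y + y') :=
  ⟨by rw [lie_add, h.1, h'.1, add_zero], by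
    rw [add_sub_add_comm]; exact Submodule.add_mem _ h.2 h'.2⟩

lemma Pr.smul {c : L} {x y : M} (h : Pr c x y) (a : ℂ) : Pr c (a • x) (a • y) :=
  ⟨by rw [lie_smul, h.1, smul_zero], by rw [← smul_sub]; exact Submodule.smul_mem _ _ h.2⟩

lemma Pr.sub {c : L} {x y x' y' : M} (h : Pr c x y) (h' : Pr c x' y') :
    Pr c (x - x') (y - y') := by
  have := h.add (h'.smul (-1))
  simpa [sub_eq_add_neg] using this

lemma Pr.unique {c : L} {x y y' : M} (h : Pr c x y) (h' : Pr c x y') : y = y' := by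
  have h1 := h'.sub h
  rw [sub_self] at h1
  have h3 := eq_zero_of_Kp (c := c) (x := y' - y) h1.1 (by simpa using (Eig M c Kp).neg_mem h1.2)
  exact (sub_eq_zero.1 h3).symm

lemma Pr.mem_Kn {c : L} {x y : M} (h : Pr c x y) : x ∈ Eig M c Kn := by
  have := (Eig M c Kn).add_mem (mem_Eig_zero zero_mem_Kn h.1) (Eig_mono Kp_sub_Kn h.2)
  rwa [add_sub_cancel] at this

lemma Pr.bilin {c : L} (B : M →ₗ[ℂ] M' →ₗ[ℂ] M'')
    (hB : ∀ x y, ⁅c, B x y⁆ = B ⁅c, x⁆ y + B x ⁅c, y⁆) {x y : M} {x' y' : M'}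
    (h : Pr c x y) (h' : Pr c x' y') : Pr c (B x x') (B y y') := by
  refine ⟨by rw [hB, h.1, h'.1]; simp, ?_⟩
  have e : B x x' - B y y' = B (x - y) x' + B y (x' - y') := by
    rw [map_sub, map_sub, LinearMap.sub_apply]; abel
  rw [e]
  refine Submodule.add_mem _ ?_ ?_
  · exact Eig_bilin B hB (fun a ha b hb => Kp_add_Kn ha hb) h.2 h'.mem_Kn
  · exact Eig_bilin B hB (fun a ha b hb => Kn_add_Kp ha hb)
      (mem_Eig_zero zero_mem_Kn h.1) h'.2

lemma Pr.hom {c : L} (f : M →ₗ[ℂ] M') (hf : ∀ x, f ⁅c, x⁆ = ⁅c, f x⁆) {x y : M}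
    (h : Pr c x y) : Pr c (f x) (f y) :=
  ⟨by rw [← hf, h.1, map_zero], by rw [← map_sub]; exact Eig_hom f hf h.2⟩

/-- the `0`-component of `x` lies in every `c`-stable subspace containing `x` -/
lemma Pr.mem {c : L} {x y : M} (h : Pr c x y) (N : Submodule ℂ M) (hN : ∀ y ∈ N, ⁅c, y⁆ ∈ N)
    (hx : x ∈ N) : y ∈ N := zero_comp_mem N hN hx h.1 h.2

/-- a form of existence of the `0`-component -/
lemma exists_Pr {c : L} {x : M} (h : x ∈ Eig M c Kn) : ∃ y, Pr c x y := by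
  refine Submodule.span_induction (p := fun x _ => ∃ y, Pr c x y) ?_ ⟨0, Pr.zero c⟩ ?_ ?_ h
  · rintro x ⟨_, ⟨k, rfl⟩, e⟩
    by_cases hk : k = 0
    · subst hk
      exact ⟨x, Pr.refl (by rw [e]; simp)⟩
    · exact ⟨0, lie_zero c, by rw [sub_zero]; exact mem_Eig ⟨k, by omega, rfl⟩ e⟩
  · rintro x y _ _ ⟨x', hx⟩ ⟨y', hy⟩
    exact ⟨_, hx.add hy⟩
  · rintro a x _ ⟨x', hx⟩
    exact ⟨_, hx.smul a⟩

end

end K4H17.WF
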