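import Pool.Agent.K4H17.WF.Weights

/-! # `GM` as a functor: full faithfulness and exactness -/

namespace K4H17.WF

open Module TensorProduct

set_option linter.unusedSectionVars false
set_option maxHeartbeats 200000
set_option synthInstance.maxHeartbeats 20000

noncomputable section

variable {ι V : Type*} [AddCommGroup V] [Module ℂ V] {b : Basis ι ℂ V}
variable {M : Type*} [AddCommGroup M] [Module ℂ M] [LieRingModule (Module.End ℂ V) M]
  [LieModule ℂ (Module.End ℂ V) M]
variable {M' : Type*} [AddCommGroup M'] [Module ℂ M'] [LieRingModule (Module.End ℂ V) M']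
  [LieModule ℂ (Module.End ℂ V) M']
variable {M'' : Type*} [AddCommGroup M''] [Module ℂ M''] [LieRingModule (Module.End ℂ V) M'']
  [LieModule ℂ (Module.End ℂ V) M'']

lemma GM_hom (f : M →ₗ[ℂ] M') (hf : ∀ (c : Module.End ℂ V) x, f ⁅c, x⁆ = ⁅c, f x⁆) {x : M}
    (hx : x ∈ GM b M) : f x ∈ GM b M' := by
  obtain ⟨S, hS⟩ := hx
  exact ⟨S, Z_hom b f hf hS⟩

lemma GM_bilin (B : M →ₗ[ℂ] M' →ₗ[ℂ] M'')
    (hB : ∀ (c : Module.End ℂ V) x y, ⁅c, B x y⁆ = B ⁅c, x⁆ y + B x ⁅c, y⁆)
    {x : M} {y : M'} (hx : x ∈ GM b M) (hy : y ∈ GM b M') : B x y ∈ GM b M'' := by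
  classical
  obtain ⟨S, hS⟩ := hx
  obtain ⟨T, hT⟩ := hy
  exact ⟨S ∪ T, Z_bilin b B hB (Z_mono b Finset.subset_union_left hS)
    (Z_mono b Finset.subset_union_right hT)⟩

lemma mem_GM_prod {x : M × M'} : x ∈ GM b (M × M') ↔ x.1 ∈ GM b M ∧ x.2 ∈ GM b M' := by
  constructor
  · intro h
    exact ⟨GM_hom (LinearMap.fst ℂ M M') (fun _ _ => rfl) h,
      GM_hom (LinearMap.snd ℂ M M') (fun _ _ => rfl) h⟩
  · rintro ⟨h1, h2⟩
    have e : x = LinearMap.inl ℂ M M' x.1 + LinearMap.inr ℂ M M' x.2 := by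
      ext <;> simp
    rw [e]
    exact (GM b (M × M')).add_mem (GM_hom (LinearMap.inl ℂ M M') (by intro c x; simp) h1)
      (GM_hom (LinearMap.inr ℂ M M') (by intro c x; simp) h2)

theorem hom_ext [Infinite ι] (hM : Nice b M) (f g : M →ₗ⁅ℂ,Module.End ℂ V⁆ M')
    (h : ∀ x ∈ GM b M, f x = g x) : f = g := by
  let N : LieSubmodule ℂ (Module.End ℂ V) M :=
    { carrier := {x | f x = g x}
      zero_mem' := by simp
      add_mem' := by
        intro x y hx hy
        change f (x + y) = g (x + y)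
        have hx' : f x = g x := hx
        have hy' : f y = g y := hy
        rw [map_add, map_add, hx', hy']
      smul_mem' := by
        intro a x hx
        change f (a • x) = g (a • x)
        have hx' : f x = g x := hx
        rw [map_smul, map_smul, hx']
      lie_mem := by
        intro a x hx
        change f ⁅a, x⁆ = g ⁅a, x⁆
        have hx' : f x = g x := hx
        rw [LieModuleHom.map_lie, LieModuleHom.map_lie, hx'] }
  have hN : N = ⊤ := eq_top_of_GM hM h
  ext x
  have : x ∈ N := by rw [hN]; exact LieSubmodule.mem_top x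
  exact this

theorem exists_hom [Infinite ι] (hM : Nice b M) (hM' : Nice b M')
    (F : GM b M →ₗ⁅ℂ,SL b⁆ GM b M') :
    ∃ f : M →ₗ⁅ℂ,Module.End ℂ V⁆ M', ∀ x : GM b M, f x = F x := by
  have hP := hM.prod hM'
  let W : LieSubmodule ℂ (SL b) (M × M') :=
    { carrier := {p | ∃ y : GM b M, p = ((y : M), (F y : M'))}
      zero_mem' := ⟨0, by simp; rfl⟩
      add_mem' := by
        rintro _ _ ⟨x, rfl⟩ ⟨y, rfl⟩
        exact ⟨x + y, by simp⟩
      smul_mem' := by
        rintro a _ ⟨x, rfl⟩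
        exact ⟨a • x, by simp⟩
      lie_mem := by
        rintro a _ ⟨x, rfl⟩
        refine ⟨⁅a, x⁆, ?_⟩
        rw [LieModuleHom.map_lie]
        rfl }
  have hW : W ≤ GM b (M × M') := by
    rintro _ ⟨y, rfl⟩
    exact mem_GM_prod.2 ⟨y.2, (F y).2⟩
  let G := sharp hP W hW
  have hG0 : ∀ m', ((0 : M), m') ∈ G → m' = 0 := by
    let N : LieSubmodule ℂ (Module.End ℂ V) M' :=
      { carrier := {m' | ((0 : M), m') ∈ G}
        zero_mem' := G.zero_mem
        add_mem' := by
          intro x y hx hy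
          have := G.add_mem hx hy
          simpa using this
        smul_mem' := by
          intro a x hx
          have := G.smul_mem a hx
          simpa using this
        lie_mem := by
          intro a x hx
          have := G.lie_mem (x := a) hx
          simpa using this }
    have hN : N = ⊥ := by
      refine eq_bot_of_GM hM' fun x hx hxN => ?_
      have h1 : ((0 : M), x) ∈ GM b (M × M') := mem_GM_prod.2 ⟨(GM b M).zero_mem, hx⟩
      obtain ⟨y, hy⟩ := (mem_sharp_iff hP W hW h1).1 hxN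
      rw [Prod.mk.injEq] at hy
      have : y = 0 := Subtype.ext hy.1.symm
      rw [hy.2, this, map_zero]
      rfl
    intro m' hm'
    have : m' ∈ N := hm'
    rwa [hN, LieSubmodule.mem_bot] at this
  have hG1 : ∀ m, ∃ m', (m, m') ∈ G := by
    let N : LieSubmodule ℂ (Module.End ℂ V) M :=
      { carrier := {m | ∃ m', (m, m') ∈ G}
        zero_mem' := ⟨0, G.zero_mem⟩
        add_mem' := by
          rintro x y ⟨x', hx⟩ ⟨y', hy⟩
          exact ⟨x' + y', by simpa using G.add_mem hx hy⟩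
        smul_mem' := by
          rintro a x ⟨x', hx⟩
          exact ⟨a • x', by simpa using G.smul_mem a hx⟩
        lie_mem := by
          rintro a x ⟨x', hx⟩
          exact ⟨⁅a, x'⁆, by simpa using G.lie_mem (x := a) hx⟩ }
    have hN : N = ⊤ := by
      refine eq_top_of_GM hM fun x hx => ?_
      exact ⟨F ⟨x, hx⟩, (mem_sharp_iff hP W hW (hW ⟨⟨x, hx⟩, rfl⟩)).2 ⟨⟨x, hx⟩, rfl⟩⟩
    intro m
    have : m ∈ N := by rw [hN]; exact LieSubmodule.mem_top m
    exact this
  have huniq : ∀ m m' m'', (m, m') ∈ G → (m, m'') ∈ G → m' = m'' := by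
    intro m m' m'' h h'
    have := hG0 (m' - m'') (by simpa using G.sub_mem h h')
    exact sub_eq_zero.1 this
  choose f hf using hG1
  refine ⟨{ toFun := f
            map_add' := fun x y => huniq (x + y) _ _ (hf _)
              (by simpa using G.add_mem (hf x) (hf y))
            map_smul' := fun a x => huniq (a • x) _ _ (hf _)
              (by simpa using G.smul_mem a (hf x))
            map_lie' := fun {a x} => huniq ⁅a, x⁆ _ _ (hf _)
              (by simpa using G.lie_mem (x := a) (hf x)) }, ?_⟩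
  intro x
  refine huniq (x : M) _ _ (hf _) ?_
  exact (mem_sharp_iff hP W hW (hW ⟨x, rfl⟩)).2 ⟨x, rfl⟩

/-- Exactness: `GM` of a surjection is a surjection. -/
lemma exists_lift {f : M →ₗ⁅ℂ,Module.End ℂ V⁆ M'} (hf : Function.Surjective f) (hM : Nice b M)
    {y : M'} (hy : y ∈ GM b M') : ∃ x ∈ GM b M, f x = y := by
  classical
  obtain ⟨x, rfl⟩ := hf y
  obtain ⟨S, hS⟩ := hy
  obtain ⟨T, hT⟩ := (hM.good x).mem_Q
  obtain ⟨x', hx', h⟩ := hT (S ∪ T) Finset.subset_union_right
  refine ⟨x', ⟨_, hx'⟩, ?_⟩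
  have h1 := h.hom (f : M →ₗ[ℂ] M') (fun z => f.map_lie _ z)
  exact h1.unique (Pr.refl (lie_g_of_Z b Finset.subset_union_left hS))

/-- restriction of an `End(V)`-submodule to `GM` -/
def resGM (N : LieSubmodule ℂ (Module.End ℂ V) M) : LieSubmodule ℂ (SL b) (GM b M) where
  carrier := {x | (x : M) ∈ N}
  zero_mem' := N.zero_mem
  add_mem' := fun h h' => N.add_mem h h'
  smul_mem' := fun a _ h => N.smul_mem a h
  lie_mem := fun {a _} h => N.lie_mem (x := (a : Module.End ℂ V)) h

lemma mem_resGM {N : LieSubmodule ℂ (Module.End ℂ V) M} {x : GM b M} :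
    x ∈ resGM N ↔ (x : M) ∈ N := Iff.rfl

/-- a submodule of `GM` as a submodule of `M` -/
def liftGM (W : LieSubmodule ℂ (SL b) (GM b M)) : LieSubmodule ℂ (SL b) M where
  carrier := {x | ∃ h : x ∈ GM b M, (⟨x, h⟩ : GM b M) ∈ W}
  zero_mem' := ⟨(GM b M).zero_mem, W.zero_mem⟩
  add_mem' := by
    rintro x y ⟨h1, h2⟩ ⟨h1', h2'⟩
    exact ⟨(GM b M).add_mem h1 h1', W.add_mem h2 h2'⟩
  smul_mem' := by
    rintro a x ⟨h1, h2⟩
    exact ⟨(GM b M).smul_mem a h1, W.smul_mem a h2⟩
  lie_mem := by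
    rintro a x ⟨h1, h2⟩
    exact ⟨(GM b M).lie_mem h1, W.lie_mem (x := a) h2⟩

lemma mem_liftGM {W : LieSubmodule ℂ (SL b) (GM b M)} {x : M} :
    x ∈ liftGM W ↔ ∃ h : x ∈ GM b M, (⟨x, h⟩ : GM b M) ∈ W := Iff.rfl

lemma liftGM_le (W : LieSubmodule ℂ (SL b) (GM b M)) : liftGM W ≤ GM b M := fun _ h => h.1

/-- The lattice isomorphism. -/
def latIso [Infinite ι] (hM : Nice b M) :
    LieSubmodule ℂ (Module.End ℂ V) M ≃o LieSubmodule ℂ (SL b) (GM b M) where
  toFun N := resGM N
  invFun W := sharp hM (liftGM W) (liftGM_le W)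
  left_inv N := by
    refine sharp_inf hM N _ _ fun x hx => ?_
    rw [mem_liftGM]
    constructor
    · rintro ⟨h, h'⟩
      exact h'
    · intro h
      exact ⟨hx, h⟩
  right_inv W := by
    apply LieSubmodule.ext
    intro x
    have h1 : (x : M) ∈ sharp hM (liftGM W) (liftGM_le W) ↔ (x : M) ∈ liftGM W :=
      mem_sharp_iff hM (liftGM W) (liftGM_le W) x.2
    have h2 : (x : M) ∈ liftGM W ↔ x ∈ W := ⟨fun h => h.2, fun h => ⟨x.2, h⟩⟩
    exact h1.trans h2
  map_rel_iff' := by
    intro N N'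
    constructor
    · intro h
      refine le_of_flat_le hM fun x hx hxN => ?_
      exact h (show (⟨x, hx⟩ : GM b M) ∈ resGM N from hxN)
    · intro h x hx
      exact h hx

lemma finiteLength_of_iso {L L' : Type*} [LieRing L] [LieAlgebra ℂ L] [LieRing L']
    [LieAlgebra ℂ L'] {P P' : Type*} [AddCommGroup P] [Module ℂ P] [LieRingModule L P]
    [LieModule ℂ L P] [AddCommGroup P'] [Module ℂ P'] [LieRingModule L' P'] [LieModule ℂ L' P']
    (e : LieSubmodule ℂ L P ≃o LieSubmodule ℂ L' P') (h : FiniteLength L P) :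
    FiniteLength L' P' := by
  obtain ⟨h1, h2⟩ := h
  exact ⟨e.symm.toOrderEmbedding.wellFoundedLT, e.symm.toOrderEmbedding.wellFoundedGT⟩

lemma good_GM (hP : Nice b M) (p : M) : Good b (GM b M).toSubmodule p := by
  obtain ⟨X, hX, S₀, h1, h2⟩ := hP.good p
  refine ⟨X, hX, S₀, h1, fun S hS => ?_⟩
  obtain ⟨y, -, hy, h⟩ := h2 S hS
  exact ⟨y, ⟨S, hy⟩, hy, h⟩

lemma tensor_GM (hM : Nice b M) (hM' : Nice b M') {x : M ⊗[ℂ] M'} :
    x ∈ GM b (M ⊗[ℂ] M') ↔ x ∈ LinearMap.range (TensorProduct.map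
      (GM b M).toSubmodule.subtype (GM b M').toSubmodule.subtype) := by
  constructor
  · intro hx
    exact (Good.tensor (good_GM hM) (good_GM hM') x).mem_of_GM hx
  · rintro ⟨t, rfl⟩
    induction t using TensorProduct.induction_on with
    | zero => rw [map_zero]; exact LieSubmodule.zero_mem _
    | tmul x y =>
      rw [TensorProduct.map_tmul]
      exact GM_bilin (TensorProduct.mk ℂ M M')
        (fun c x y => TensorProduct.LieModule.lie_tmul_right c x y) x.2 y.2
    | add x y hx hy => rw [map_add]; exact add_mem hx hy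

end

end K4H17.WF
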