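import Pool.Agent.K4H17.WF.Defs
import Pool.Agent.K4H17.WF.Eig

/-! # Coordinate projections and the notion of a good vector -/

namespace K4H17.WF

open Module TensorProduct

set_option linter.unusedSectionVars false

noncomputable section

section pr

variable {ι V : Type*} [AddCommGroup V] [Module ℂ V] (b : Basis ι ℂ V)

/-- The coordinate projection of `V` onto the span of the `b i`, `i ∈ S`. -/
def pr (S : Finset ι) : Module.End ℂ V := ∑ i ∈ S, rankOne b i

lemma rankOne_apply (γ : ι) (v : V) : rankOne b γ v = b.coord γ v • b γ := rfl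

lemma rankOne_basis [DecidableEq ι] (γ j : ι) : rankOne b γ (b j) = if j = γ then b j else 0 := by
  rw [rankOne_apply, Basis.coord_apply, b.repr_self, Finsupp.single_apply]
  split_ifs with h
  · rw [h, one_smul]
  · rw [zero_smul]

lemma pr_basis [DecidableEq ι] (S : Finset ι) (j : ι) :
    pr b S (b j) = if j ∈ S then b j else 0 := by
  rw [pr, LinearMap.sum_apply]
  simp only [rankOne_basis]
  rw [Finset.sum_ite_eq]

lemma pr_mul_of_subset {S T : Finset ι} (h : S ⊆ T) : pr b S * pr b T = pr b S := by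
  classical
  refine b.ext fun j => ?_
  rw [Module.End.mul_apply, pr_basis, pr_basis]
  by_cases h1 : j ∈ T
  · rw [if_pos h1, pr_basis]
  · have : j ∉ S := fun h2 => h1 (h h2)
    rw [if_neg h1, if_neg this, map_zero]

lemma pr_mul_of_subset' {S T : Finset ι} (h : S ⊆ T) : pr b T * pr b S = pr b S := by
  classical
  refine b.ext fun j => ?_
  rw [Module.End.mul_apply, pr_basis]
  by_cases h1 : j ∈ S
  · rw [if_pos h1, pr_basis, if_pos (h h1)]
  · rw [if_neg h1, map_zero]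

lemma pr_mul_self (S : Finset ι) : pr b S * pr b S = pr b S :=
  pr_mul_of_subset b (Finset.Subset.refl _)

lemma pr_mul_rankOne {S : Finset ι} {γ : ι} (h : γ ∉ S) : pr b S * rankOne b γ = 0 := by
  classical
  refine b.ext fun j => ?_
  rw [Module.End.mul_apply, rankOne_basis]
  split_ifs with h1
  · subst h1
    rw [pr_basis, if_neg h]; rfl
  · rw [map_zero]; rfl

lemma rankOne_mul_pr {S : Finset ι} {γ : ι} (h : γ ∉ S) : rankOne b γ * pr b S = 0 := by
  classical
  refine b.ext fun j => ?_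
  rw [Module.End.mul_apply, pr_basis]
  split_ifs with h1
  · rw [rankOne_basis, if_neg]
    · rfl
    · rintro rfl; exact h h1
  · rw [map_zero]; rfl

lemma rankOne_mul_rankOne (w : Basis ι ℂ V) {γ δ : ι} (h : γ ≠ δ) :
    rankOne w γ * rankOne w δ = 0 := by
  classical
  refine w.ext fun j => ?_
  rw [Module.End.mul_apply, rankOne_basis]
  split_ifs with h1
  · subst h1
    rw [rankOne_basis, if_neg (Ne.symm h)]; rfl
  · rw [map_zero]; rfl

lemma rankOne_mul_self (w : Basis ι ℂ V) (γ : ι) :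
    rankOne w γ * rankOne w γ = rankOne w γ := by
  classical
  refine w.ext fun j => ?_
  rw [Module.End.mul_apply, rankOne_basis]
  split_ifs with h1
  · subst h1
    rw [rankOne_basis, if_pos rfl]
  · rw [map_zero]

lemma exists_pr_apply (v : V) : ∃ S₀ : Finset ι, ∀ S, S₀ ⊆ S → pr b S v = v := by
  classical
  refine ⟨(b.repr v).support, fun S hS => ?_⟩
  conv_rhs => rw [← b.linearCombination_repr v, Finsupp.linearCombination_apply, Finsupp.sum]
  rw [pr, LinearMap.sum_apply]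
  simp only [rankOne_apply, Basis.coord_apply]
  symm
  refine Finset.sum_subset hS fun i _ hi => ?_
  rw [Finsupp.notMem_support_iff.1 hi, zero_smul]

lemma coord_comp_pr [DecidableEq ι] (S : Finset ι) (i : ι) :
    b.coord i ∘ₗ pr b S = if i ∈ S then b.coord i else 0 := by
  refine b.ext fun j => ?_
  rw [LinearMap.comp_apply, pr_basis]
  split_ifs with h1 h2 h2
  · rfl
  · rw [Basis.coord_apply, b.repr_self, Finsupp.single_apply, if_neg]
    · rfl
    · rintro rfl; exact h2 h1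
  · rw [map_zero, Basis.coord_apply, b.repr_self, Finsupp.single_apply, if_neg]
    rintro rfl; exact h1 h2
  · rw [map_zero]; rfl

lemma exists_comp_pr {φ : Dual ℂ V} (h : φ ∈ dualSpan b) :
    ∃ S₀ : Finset ι, ∀ S, S₀ ⊆ S → φ ∘ₗ pr b S = φ := by
  classical
  refine Submodule.span_induction (p := fun φ _ => ∃ S₀ : Finset ι, ∀ S, S₀ ⊆ S →
    φ ∘ₗ pr b S = φ) ?_ ⟨∅, fun S _ => LinearMap.zero_comp _⟩ ?_ ?_ h
  · rintro _ ⟨i, rfl⟩
    refine ⟨{i}, fun S hS => ?_⟩
    rw [coord_comp_pr, if_pos (hS (Finset.mem_singleton_self i))]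
  · rintro x y _ _ ⟨S, hS⟩ ⟨T, hT⟩
    refine ⟨S ∪ T, fun S' h => ?_⟩
    rw [LinearMap.add_comp, hS S' (Finset.union_subset_left h),
      hT S' (Finset.union_subset_right h)]
  · rintro a x _ ⟨S, hS⟩
    exact ⟨S, fun S' h => by rw [LinearMap.smul_comp, hS S' h]⟩

lemma comp_rankOne (φ : Dual ℂ V) (i : ι) : φ ∘ₗ rankOne b i = φ (b i) • b.coord i := by
  ext v
  rw [LinearMap.comp_apply, rankOne_apply, map_smul, LinearMap.smul_apply, smul_eq_mul,
    smul_eq_mul, mul_comm]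

lemma comp_pr_mem (φ : Dual ℂ V) (S : Finset ι) : φ ∘ₗ pr b S ∈ dualSpan b := by
  have : φ ∘ₗ pr b S = ∑ i ∈ S, φ (b i) • b.coord i := by
    ext v
    rw [LinearMap.comp_apply, pr, LinearMap.sum_apply, LinearMap.sum_apply, map_sum]
    refine Finset.sum_congr rfl fun i _ => ?_
    rw [rankOne_apply, map_smul, LinearMap.smul_apply, smul_eq_mul, smul_eq_mul, mul_comm]
  rw [this]
  refine Submodule.sum_mem _ fun i _ => ?_
  exact Submodule.smul_mem _ _ (Submodule.subset_span ⟨i, rfl⟩)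

lemma exists_pr_mul (a : Module.End ℂ V) (S : Finset ι) :
    ∃ S₀ : Finset ι, ∀ T, S₀ ⊆ T → pr b T * (a * pr b S) = a * pr b S := by
  classical
  choose F hF using fun i => exists_pr_apply b (a (b i))
  refine ⟨S.biUnion F, fun T hT => b.ext fun j => ?_⟩
  rw [Module.End.mul_apply, Module.End.mul_apply, pr_basis]
  split_ifs with h
  · exact hF j T ((Finset.subset_biUnion_of_mem F h).trans hT)
  · simp

/-- Elements of `V ⊗ V_*`, as operators. -/
def FR (a : Module.End ℂ V) : Prop :=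
  ∃ S₀ : Finset ι, ∀ S, S₀ ⊆ S → pr b S * a = a ∧ a * pr b S = a

lemma FR_pr (S : Finset ι) : FR b (pr b S) :=
  ⟨S, fun _ h => ⟨pr_mul_of_subset' b h, pr_mul_of_subset b h⟩⟩

lemma FR_sub {a c : Module.End ℂ V} (ha : FR b a) (hc : FR b c) : FR b (a - c) := by
  classical
  obtain ⟨S, hS⟩ := ha
  obtain ⟨T, hT⟩ := hc
  refine ⟨S ∪ T, fun S' h => ?_⟩
  obtain ⟨h1, h2⟩ := hS S' (Finset.union_subset_left h)
  obtain ⟨h3, h4⟩ := hT S' (Finset.union_subset_right h)
  exact ⟨by rw [mul_sub, h1, h3], by rw [sub_mul, h2, h4]⟩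

lemma FR_mul_pr (a : Module.End ℂ V) (S : Finset ι) : FR b (a * pr b S) := by
  classical
  obtain ⟨T, hT⟩ := exists_pr_mul b a S
  refine ⟨S ∪ T, fun S' h => ⟨hT S' (Finset.union_subset_right h), ?_⟩⟩
  rw [mul_assoc, pr_mul_of_subset b (Finset.union_subset_left h)]

lemma FR_of_tensorSpan {t : Dual ℂ V ⊗[ℂ] V} (ht : t ∈ tensorSpan b) :
    FR b (dualTensorHom ℂ V V t) := by
  classical
  obtain ⟨s, rfl⟩ := ht
  induction s using TensorProduct.induction_on with
  | zero => exact ⟨∅, fun S _ => by simp⟩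
  | tmul φ v =>
    obtain ⟨S, hS⟩ := exists_pr_apply b v
    obtain ⟨T, hT⟩ := exists_comp_pr b φ.2
    refine ⟨S ∪ T, fun S' h => ⟨?_, ?_⟩⟩
    · ext x
      simp [Module.End.mul_apply, hS S' (Finset.union_subset_left h)]
    · ext x
      have := DFunLike.congr_fun (hT S' (Finset.union_subset_right h)) x
      rw [LinearMap.comp_apply] at this
      simp [Module.End.mul_apply, this]
  | add x y hx hy =>
    obtain ⟨S, hS⟩ := hx
    obtain ⟨T, hT⟩ := hy
    refine ⟨S ∪ T, fun S' h => ?_⟩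
    obtain ⟨h1, h2⟩ := hS S' (Finset.union_subset_left h)
    obtain ⟨h3, h4⟩ := hT S' (Finset.union_subset_right h)
    rw [map_add, map_add]
    exact ⟨by rw [mul_add, h1, h3], by rw [add_mul, h2, h4]⟩

lemma FR_of_sl {a : Module.End ℂ V} (ha : a ∈ sl b) : FR b a := by
  obtain ⟨t, ht, -, rfl⟩ := (mem_sl b).1 ha
  exact FR_of_tensorSpan b ht

lemma tmul_mem_tensorSpan {φ : Dual ℂ V} (hφ : φ ∈ dualSpan b) (v : V) :
    φ ⊗ₜ[ℂ] v ∈ tensorSpan b := ⟨(⟨φ, hφ⟩ : dualSpan b) ⊗ₜ v, by simp⟩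

lemma rankOne_sub_mem (w : Basis ι ℂ V) (hw : Submodule.span ℂ (Set.range w.coord) = dualSpan b)
    (γ δ : ι) : rankOne w γ - rankOne w δ ∈ sl b := by
  refine (mem_sl b).2 ⟨w.coord γ ⊗ₜ w γ - w.coord δ ⊗ₜ w δ, ?_, ?_, ?_⟩
  · refine Submodule.sub_mem _ (tmul_mem_tensorSpan b ?_ _) (tmul_mem_tensorSpan b ?_ _)
    · rw [← hw]; exact Submodule.subset_span ⟨γ, rfl⟩
    · rw [← hw]; exact Submodule.subset_span ⟨δ, rfl⟩
  · simp
  · rw [map_sub]
    congr 1

/-- every finite rank operator is traceless up to a multiple of a given `e_γ` -/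
lemma exists_sub_mem_sl {a : Module.End ℂ V} (ha : FR b a) (γ : ι) :
    ∃ r : ℂ, a - r • rankOne b γ ∈ sl b := by
  classical
  obtain ⟨S, hS⟩ := ha
  obtain ⟨-, h2⟩ := hS S (Finset.Subset.refl _)
  let t : Dual ℂ V ⊗[ℂ] V := ∑ i ∈ S, b.coord i ⊗ₜ a (b i)
  have ht : t ∈ tensorSpan b :=
    Submodule.sum_mem _ fun i _ => tmul_mem_tensorSpan b (Submodule.subset_span ⟨i, rfl⟩) _
  have hta : dualTensorHom ℂ V V t = a := by
    rw [← h2]
    simp only [t]
    rw [map_sum, pr, Finset.mul_sum]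
    refine Finset.sum_congr rfl fun i _ => ?_
    ext x
    simp [rankOne_apply, Module.End.mul_apply]
  refine ⟨contractLeft ℂ V t, (mem_sl b).2
    ⟨t - contractLeft ℂ V t • (b.coord γ ⊗ₜ b γ), ?_, ?_, ?_⟩⟩
  · exact Submodule.sub_mem _ ht (Submodule.smul_mem _ _ (tmul_mem_tensorSpan b
      (Submodule.subset_span ⟨γ, rfl⟩) _))
  · rw [map_sub, map_smul, contractLeft_apply, Basis.coord_apply, b.repr_self]
    simp
  · rw [map_sub, map_smul, hta]
    congr 1

end pr

section good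

variable {ι V : Type*} [AddCommGroup V] [Module ℂ V] (b : Basis ι ℂ V)
variable {M : Type*} [AddCommGroup M] [Module ℂ M] [LieRingModule (Module.End ℂ V) M]
  [LieModule ℂ (Module.End ℂ V) M]
variable {M' : Type*} [AddCommGroup M'] [Module ℂ M'] [LieRingModule (Module.End ℂ V) M']
  [LieModule ℂ (Module.End ℂ V) M']
variable {M'' : Type*} [AddCommGroup M''] [Module ℂ M''] [LieRingModule (Module.End ℂ V) M'']
  [LieModule ℂ (Module.End ℂ V) M'']

/-- The vectors killed by all operators `c` with `π_S c = 0 = c π_S`. -/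
def Z (M : Type*) [AddCommGroup M] [Module ℂ M] [LieRingModule (Module.End ℂ V) M]
    [LieModule ℂ (Module.End ℂ V) M] (S : Finset ι) : Submodule ℂ M where
  carrier := {y | ∀ c : Module.End ℂ V, pr b S * c = 0 → c * pr b S = 0 → ⁅c, y⁆ = 0}
  zero_mem' := by intro c _ _; simp
  add_mem' := by
    intro x y hx hy c h1 h2
    rw [lie_add, hx c h1 h2, hy c h1 h2, add_zero]
  smul_mem' := by
    intro a x hx c h1 h2
    rw [lie_smul, hx c h1 h2, smul_zero]

lemma mem_Z {S : Finset ι} {y : M} : y ∈ Z b M S ↔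
    ∀ c : Module.End ℂ V, pr b S * c = 0 → c * pr b S = 0 → ⁅c, y⁆ = 0 := Iff.rfl

lemma Z_mono {S T : Finset ι} (h : S ⊆ T) : Z b M S ≤ Z b M T := by
  intro y hy c h1 h2
  refine hy c ?_ ?_
  · rw [← pr_mul_of_subset b h, mul_assoc, h1, mul_zero]
  · rw [← pr_mul_of_subset' b h, ← mul_assoc, h2, zero_mul]

lemma lie_g_of_Z {S T : Finset ι} (h : S ⊆ T) {y : M} (hy : y ∈ Z b M S) :
    ⁅pr b T - 1, y⁆ = 0 :=
  hy _ (by rw [mul_sub, mul_one, pr_mul_of_subset b h, sub_self])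
    (by rw [sub_mul, one_mul, pr_mul_of_subset' b h, sub_self])

lemma lie_rankOne_of_Z {S : Finset ι} {γ : ι} (h : γ ∉ S) {y : M} (hy : y ∈ Z b M S) :
    ⁅rankOne b γ, y⁆ = 0 :=
  hy _ (pr_mul_rankOne b h) (rankOne_mul_pr b h)

lemma Z_bilin (B : M →ₗ[ℂ] M' →ₗ[ℂ] M'')
    (hB : ∀ (c : Module.End ℂ V) x y, ⁅c, B x y⁆ = B ⁅c, x⁆ y + B x ⁅c, y⁆)
    {S : Finset ι} {x : M} {y : M'} (hx : x ∈ Z b M S) (hy : y ∈ Z b M' S) :
    B x y ∈ Z b M'' S := by
  intro c h1 h2
  rw [hB, hx c h1 h2, hy c h1 h2]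
  simp

lemma Z_hom (f : M →ₗ[ℂ] M') (hf : ∀ (c : Module.End ℂ V) x, f ⁅c, x⁆ = ⁅c, f x⁆)
    {S : Finset ι} {x : M} (hx : x ∈ Z b M S) : f x ∈ Z b M' S := by
  intro c h1 h2
  rw [← hf, hx c h1 h2, map_zero]

/-- Good vectors, with `G`-valued truncations. -/
def Good (G : Submodule ℂ M) (x : M) : Prop :=
  ∃ (X : Set (Dual ℂ V)) (_ : X.Finite) (S₀ : Finset ι),
    (∀ γ ∉ S₀, x ∈ Eig M (-(rankOne b γ)) Kn) ∧
    ∀ S, S₀ ⊆ S → ∃ y ∈ G, y ∈ Z b M S ∧ Pr (pr b S - 1) x y ∧
      ∀ u : Module.End ℂ V, u * pr b S = pr b S → pr b S * u = u → (∀ φ ∈ X, φ ∘ₗ u = φ) →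
        Pr (u - 1) y x

lemma Good.mono {G G' : Submodule ℂ M} (h : G ≤ G') {x : M} (hx : Good b G x) :
    Good b G' x := by
  obtain ⟨X, hX, S₀, h1, h2⟩ := hx
  refine ⟨X, hX, S₀, h1, fun S hS => ?_⟩
  obtain ⟨y, hy, h3⟩ := h2 S hS
  exact ⟨y, h hy, h3⟩

lemma Good.zero (G : Submodule ℂ M) : Good b G 0 :=
  ⟨∅, Set.finite_empty, ∅, fun _ _ => Submodule.zero_mem _, fun _ _ =>
    ⟨0, G.zero_mem, Submodule.zero_mem _, Pr.zero _, fun _ _ _ _ => Pr.zero _⟩⟩

lemma Good.add {G : Submodule ℂ M} {x x' : M} (hx : Good b G x) (hx' : Good b G x') :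
    Good b G (x + x') := by
  classical
  obtain ⟨X, hX, S₀, h1, h2⟩ := hx
  obtain ⟨X', hX', S₀', h1', h2'⟩ := hx'
  refine ⟨X ∪ X', hX.union hX', S₀ ∪ S₀', fun γ hγ => ?_, fun S hS => ?_⟩
  · rw [Finset.mem_union, not_or] at hγ
    exact Submodule.add_mem _ (h1 γ hγ.1) (h1' γ hγ.2)
  · obtain ⟨y, hy, hyZ, h3, h4⟩ := h2 S (Finset.union_subset_left hS)
    obtain ⟨y', hy', hyZ', h3', h4'⟩ := h2' S (Finset.union_subset_right hS)
    refine ⟨y + y', G.add_mem hy hy', Submodule.add_mem _ hyZ hyZ', h3.add h3', ?_⟩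
    intro u hu hu' hφ
    exact (h4 u hu hu' fun φ h => hφ φ (Or.inl h)).add
      (h4' u hu hu' fun φ h => hφ φ (Or.inr h))

lemma Good.bilin (B : M →ₗ[ℂ] M' →ₗ[ℂ] M'')
    (hB : ∀ (c : Module.End ℂ V) x y, ⁅c, B x y⁆ = B ⁅c, x⁆ y + B x ⁅c, y⁆)
    {G : Submodule ℂ M} {G' : Submodule ℂ M'} {G'' : Submodule ℂ M''}
    (hG : ∀ x ∈ G, ∀ y ∈ G', B x y ∈ G'') {x : M} {x' : M'}
    (hx : Good b G x) (hx' : Good b G' x') : Good b G'' (B x x') := by
  classical
  obtain ⟨X, hX, S₀, h1, h2⟩ := hx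
  obtain ⟨X', hX', S₀', h1', h2'⟩ := hx'
  refine ⟨X ∪ X', hX.union hX', S₀ ∪ S₀', fun γ hγ => ?_, fun S hS => ?_⟩
  · rw [Finset.mem_union, not_or] at hγ
    exact Eig_bilin B (hB _) (fun a ha b hb => Kn_add_Kn ha hb) (h1 γ hγ.1) (h1' γ hγ.2)
  · obtain ⟨y, hy, hyZ, h3, h4⟩ := h2 S (Finset.union_subset_left hS)
    obtain ⟨y', hy', hyZ', h3', h4'⟩ := h2' S (Finset.union_subset_right hS)
    refine ⟨B y y', hG _ hy _ hy', Z_bilin b B hB hyZ hyZ', h3.bilin B (hB _) h3', ?_⟩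
    intro u hu hu' hφ
    exact (h4 u hu hu' fun φ h => hφ φ (Or.inl h)).bilin B (hB _)
      (h4' u hu hu' fun φ h => hφ φ (Or.inr h))

lemma Good.hom (f : M →ₗ[ℂ] M') (hf : ∀ (c : Module.End ℂ V) x, f ⁅c, x⁆ = ⁅c, f x⁆)
    {G : Submodule ℂ M} {G' : Submodule ℂ M'} (hG : ∀ x ∈ G, f x ∈ G') {x : M}
    (hx : Good b G x) : Good b G' (f x) := by
  obtain ⟨X, hX, S₀, h1, h2⟩ := hx
  refine ⟨X, hX, S₀, fun γ hγ => Eig_hom f (hf _) (h1 γ hγ), fun S hS => ?_⟩
  obtain ⟨y, hy, hyZ, h3, h4⟩ := h2 S hS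
  exact ⟨f y, hG _ hy, Z_hom b f hf hyZ, h3.hom f (hf _), fun u hu hu' hφ =>
    (h4 u hu hu' hφ).hom f (hf _)⟩

/-- Good vectors of a module that lie in a submodule are good vectors of the submodule. -/
lemma Good.sub (N : LieSubmodule ℂ (Module.End ℂ V) M) {x : N} (hx : Good b ⊤ (x : M)) :
    Good b ⊤ x := by
  obtain ⟨X, hX, S₀, h1, h2⟩ := hx
  refine ⟨X, hX, S₀, fun γ hγ => Eig_sub N x (h1 γ hγ), fun S hS => ?_⟩
  obtain ⟨y, -, hyZ, h3, h4⟩ := h2 S hS
  have hyN : y ∈ N := h3.mem N.toSubmodule (fun z hz => N.lie_mem hz) x.2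
  refine ⟨⟨y, hyN⟩, trivial, fun c hc hc' => Subtype.ext (hyZ c hc hc'),
    ⟨Subtype.ext h3.1, Eig_sub N _ h3.2⟩, fun u hu hu' hφ => ?_⟩
  have := h4 u hu hu' hφ
  exact ⟨Subtype.ext this.1, Eig_sub N _ this.2⟩

/-- The modules we study: all vectors are good, and idempotents act diagonalizably with integer
eigenvalues. -/
structure Nice (M : Type*) [AddCommGroup M] [Module ℂ M] [LieRingModule (Module.End ℂ V) M]
    [LieModule ℂ (Module.End ℂ V) M] : Prop where
  good : ∀ x : M, Good b ⊤ x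
  diag : ∀ e : Module.End ℂ V, e * e = e → ∀ x : M, x ∈ Eig M e Kz

variable {b}

lemma Nice.sub (h : Nice b M) (N : LieSubmodule ℂ (Module.End ℂ V) M) : Nice b N where
  good x := (h.good x).sub b N
  diag e he x := Eig_sub N x (h.diag e he x)

lemma Nice.of_surjective (h : Nice b M) (f : M →ₗ⁅ℂ,Module.End ℂ V⁆ M')
    (hf : Function.Surjective f) : Nice b M' where
  good x := by
    obtain ⟨y, rfl⟩ := hf x
    exact (h.good y).hom b (f : M →ₗ[ℂ] M') (fun c x => f.map_lie c x) (fun _ _ => Submodule.mem_top)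
  diag e he x := by
    obtain ⟨y, rfl⟩ := hf x
    exact Eig_hom (f : M →ₗ[ℂ] M') (fun x => f.map_lie e x) (h.diag e he y)

lemma Nice.prod (h : Nice b M) (h' : Nice b M') : Nice b (M × M') where
  good x := by
    have e : x = LinearMap.inl ℂ M M' x.1 + LinearMap.inr ℂ M M' x.2 := by
      ext <;> simp
    rw [e]
    exact ((h.good x.1).hom b (LinearMap.inl ℂ M M') (by intro c x; simp)
      (fun _ _ => Submodule.mem_top)).add b ((h'.good x.2).hom b (LinearMap.inr ℂ M M')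
      (by intro c x; simp) (fun _ _ => Submodule.mem_top))
  diag e he x := by
    have e : x = LinearMap.inl ℂ M M' x.1 + LinearMap.inr ℂ M M' x.2 := by
      ext <;> simp
    rw [e]
    exact Submodule.add_mem _ (Eig_hom (LinearMap.inl ℂ M M') (by intro x; simp)
      (h.diag _ he x.1)) (Eig_hom (LinearMap.inr ℂ M M') (by intro x; simp)
      (h'.diag _ he x.2))

lemma Good.sum {κ : Type*} (s : Finset κ) {G : Submodule ℂ M} {x : κ → M}
    (h : ∀ i ∈ s, Good b G (x i)) : Good b G (∑ i ∈ s, x i) := by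
  classical
  induction s using Finset.induction_on with
  | empty => exact Good.zero b G
  | insert i s hi ih =>
    rw [Finset.sum_insert hi]
    exact (h i (Finset.mem_insert_self i s)).add b
      (ih fun j hj => h j (Finset.mem_insert_of_mem hj))

lemma lie_single {κ : Type*} [DecidableEq κ] (i : κ) (c : Module.End ℂ V) (x : M) :
    LinearMap.single ℂ (fun _ : κ => M) i ⁅c, x⁆ = ⁅c, LinearMap.single ℂ (fun _ : κ => M) i x⁆ := by
  ext j
  rw [lie_pow]
  simp only [LinearMap.coe_single, Pi.single_apply]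
  split_ifs
  · rfl
  · rw [lie_zero]

lemma Good.pow {κ : Type*} [Fintype κ] {G : Submodule ℂ M} (h : ∀ x : M, Good b G x)
    (x : κ → M) : Good b (Submodule.pi Set.univ fun _ : κ => G) x := by
  classical
  have e : x = ∑ i, LinearMap.single ℂ (fun _ : κ => M) i (x i) := by
    simp [LinearMap.coe_single, Finset.univ_sum_single]
  rw [e]
  refine Good.sum _ fun i _ => (h (x i)).hom b _ (lie_single i) fun y hy j _ => ?_
  simp only [LinearMap.coe_single, Pi.single_apply]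
  split_ifs
  · exact hy
  · exact G.zero_mem

lemma Nice.pow {κ : Type*} [Fintype κ] (h : Nice b M) : Nice b (κ → M) where
  good x := (Good.pow h.good x).mono b le_top
  diag e he x := by
    classical
    have e' : x = ∑ i, LinearMap.single ℂ (fun _ : κ => M) i (x i) := by
      simp [LinearMap.coe_single, Finset.univ_sum_single]
    rw [e']
    exact Submodule.sum_mem _ fun i _ => Eig_hom _ (lie_single i _) (h.diag e he (x i))

end good

section base

variable {ι V : Type*} [AddCommGroup V] [Module ℂ V] (b : Basis ι ℂ V)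

/-- vectors killed by everything are good -/
lemma Good.of_trivial {M : Type*} [AddCommGroup M] [Module ℂ M]
    [LieRingModule (Module.End ℂ V) M] [LieModule ℂ (Module.End ℂ V) M] {G : Submodule ℂ M}
    {x : M} (hx : x ∈ G) (h : ∀ c : Module.End ℂ V, ⁅c, x⁆ = 0) : Good b G x :=
  ⟨∅, Set.finite_empty, ∅, fun _ _ => mem_Eig_zero zero_mem_Kn (h _), fun _ _ =>
    ⟨x, hx, fun c _ _ => h c, Pr.refl (h _), fun _ _ _ _ => Pr.refl (h _)⟩⟩

lemma good_V (v : V) : Good b ⊤ v := by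
  classical
  obtain ⟨S₀, hS₀⟩ := exists_pr_apply b v
  refine ⟨∅, Set.finite_empty, S₀, fun γ hγ => ?_, fun S hS => ?_⟩
  · refine mem_Eig_zero zero_mem_Kn ?_
    rw [neg_lie, Module.End.lie_apply, ← hS₀ S₀ (Finset.Subset.refl _), ← Module.End.mul_apply,
      rankOne_mul_pr b hγ]
    simp
  · have hv := hS₀ S hS
    refine ⟨v, trivial, fun c _ h => ?_, Pr.refl ?_, fun u hu _ _ => Pr.refl ?_⟩
    · rw [Module.End.lie_apply, ← hv, ← Module.End.mul_apply, h]; rfl
    · rw [Module.End.lie_apply, LinearMap.sub_apply, hv]; simp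
    · rw [Module.End.lie_apply, LinearMap.sub_apply]
      nth_rewrite 1 [← hv]
      rw [← Module.End.mul_apply, hu, hv]; simp

lemma lie_dual (c : Module.End ℂ V) (φ : Dual ℂ V) : ⁅c, φ⁆ = -(φ ∘ₗ c) := rfl

@[simp] lemma comp_one' (φ : Dual ℂ V) : φ ∘ₗ (1 : Module.End ℂ V) = φ := LinearMap.comp_id φ

lemma good_dual (φ : Dual ℂ V) : Good b (dualSpan b) φ := by
  classical
  refine ⟨{φ}, Set.finite_singleton φ, ∅, fun γ hγ => ?_, fun S hS => ?_⟩
  · have e : φ = φ ∘ₗ rankOne b γ + (φ - φ ∘ₗ rankOne b γ) := by abel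
    rw [e]
    refine Submodule.add_mem _ (mem_Eig_one one_mem_Kn ?_) (mem_Eig_zero zero_mem_Kn ?_)
    · rw [neg_lie, lie_dual, neg_neg, LinearMap.comp_assoc]
      congr 1
      exact rankOne_mul_self b γ
    · rw [neg_lie, lie_dual, neg_neg, LinearMap.sub_comp, LinearMap.comp_assoc]
      rw [show rankOne b γ ∘ₗ rankOne b γ = rankOne b γ from rankOne_mul_self b γ, sub_self]
  · refine ⟨φ ∘ₗ pr b S, comp_pr_mem b φ S, fun c h _ => ?_, ⟨?_, ?_⟩, fun u h1 h2 h3 =>
      ⟨?_, ?_⟩⟩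
    · rw [lie_dual, LinearMap.comp_assoc, show pr b S ∘ₗ c = 0 from h]; simp
    · rw [lie_dual, LinearMap.comp_assoc, show pr b S ∘ₗ (pr b S - 1) = 0 from by
        change pr b S * (pr b S - 1) = 0
        rw [mul_sub, pr_mul_self, mul_one, sub_self]]
      simp
    · refine mem_Eig_one one_mem_Kp ?_
      rw [lie_dual, LinearMap.sub_comp, LinearMap.comp_assoc,
        show pr b S ∘ₗ (pr b S - 1) = 0 from by
        change pr b S * (pr b S - 1) = 0
        rw [mul_sub, pr_mul_self, mul_one, sub_self], LinearMap.comp_zero, sub_zero,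
        LinearMap.comp_sub]
      simp
    · rw [lie_dual, LinearMap.comp_sub, h3 φ rfl]
      simp
    · refine mem_Eig_one one_mem_Kp ?_
      rw [lie_dual, LinearMap.sub_comp, LinearMap.comp_sub, LinearMap.comp_sub,
        h3 φ rfl, LinearMap.comp_assoc, show pr b S ∘ₗ u = u from h2, h3 φ rfl]
      simp

lemma diag_V (e : Module.End ℂ V) (he : e * e = e) (x : V) : x ∈ Eig V e Kz := by
  have h : x = e x + (x - e x) := by abel
  rw [h]
  refine Submodule.add_mem _ (mem_Eig_one ⟨1, by simp⟩ ?_) (mem_Eig_zero zero_mem_Kz ?_)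
  · rw [Module.End.lie_apply, ← Module.End.mul_apply, he]
  · rw [Module.End.lie_apply, map_sub, ← Module.End.mul_apply, he, sub_self]

lemma diag_dual (e : Module.End ℂ V) (he : e * e = e) (x : Dual ℂ V) :
    x ∈ Eig (Dual ℂ V) e Kz := by
  have h : x = x ∘ₗ e + (x - x ∘ₗ e) := by abel
  have he' : e ∘ₗ e = e := he
  rw [h]
  refine Submodule.add_mem _ (mem_Eig (l := -1) ⟨-1, by simp⟩ ?_) (mem_Eig_zero zero_mem_Kz ?_)
  · rw [lie_dual, LinearMap.comp_assoc, he']; simp
  · rw [lie_dual, LinearMap.sub_comp, LinearMap.comp_assoc, he', sub_self, neg_zero]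

lemma nice_R : Nice b (V × Dual ℂ V) := by
  refine Nice.prod ⟨good_V b, diag_V⟩ ⟨fun x => (good_dual b x).mono b le_top, diag_dual⟩

end base

section tensor

variable {ι V : Type*} [AddCommGroup V] [Module ℂ V] {b : Basis ι ℂ V}
variable {R : Type*} [AddCommGroup R] [Module ℂ R] [LieRingModule (Module.End ℂ V) R]
  [LieModule ℂ (Module.End ℂ V) R]
variable {M : Type*} [AddCommGroup M] [Module ℂ M] [LieRingModule (Module.End ℂ V) M]
  [LieModule ℂ (Module.End ℂ V) M]
variable {M' : Type*} [AddCommGroup M'] [Module ℂ M'] [LieRingModule (Module.End ℂ V) M']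
  [LieModule ℂ (Module.End ℂ V) M']

lemma Good.tensorAlgebra {G : Submodule ℂ R} (h : ∀ x : R, Good b G x)
    (A : Subalgebra ℂ (TensorAlgebra ℂ R)) (hA : ∀ x ∈ G, TensorAlgebra.ι ℂ x ∈ A)
    (x : TensorAlgebra ℂ R) : Good b (Subalgebra.toSubmodule A) x := by
  induction x using TensorAlgebra.induction with
  | algebraMap r => exact Good.of_trivial b (A.algebraMap_mem r) (fun c => lie_algebraMap c r)
  | ι x => exact (h x).hom b (TensorAlgebra.ι ℂ) (fun c x => (lie_ι c x).symm) hA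
  | mul x y hx hy =>
    exact hx.bilin b (LinearMap.mul ℂ (TensorAlgebra ℂ R)) (fun c x y => lie_tmul c x y)
      (fun x hx y hy => A.mul_mem hx hy) hy
  | add x y hx hy => exact hx.add b hy

lemma Nice.tensorAlgebra (h : Nice b R) : Nice b (TensorAlgebra ℂ R) where
  good x := (Good.tensorAlgebra h.good ⊤ (fun _ _ => trivial) x).mono b le_top
  diag e he x := by
    induction x using TensorAlgebra.induction with
    | algebraMap r => exact mem_Eig_zero zero_mem_Kz (lie_algebraMap e r)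
    | ι x => exact Eig_hom (TensorAlgebra.ι ℂ) (fun x => (lie_ι e x).symm) (h.diag e he x)
    | mul x y hx hy =>
      exact Eig_bilin (LinearMap.mul ℂ (TensorAlgebra ℂ R)) (fun x y => lie_tmul e x y)
        (fun a ha b hb => Kz_add_Kz ha hb) hx hy
    | add x y hx hy => exact Submodule.add_mem _ hx hy

lemma Good.tensor {G : Submodule ℂ M} {G' : Submodule ℂ M'} (h : ∀ x : M, Good b G x)
    (h' : ∀ x : M', Good b G' x) (x : M ⊗[ℂ] M') :
    Good b (LinearMap.range (TensorProduct.map G.subtype G'.subtype)) x := by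
  induction x using TensorProduct.induction_on with
  | zero => exact Good.zero b _
  | tmul x y =>
    refine (h x).bilin b (TensorProduct.mk ℂ M M') (fun c x y => ?_) (fun x hx y hy => ?_) (h' y)
    · exact TensorProduct.LieModule.lie_tmul_right c x y
    · exact ⟨⟨x, hx⟩ ⊗ₜ ⟨y, hy⟩, by simp⟩
  | add x y hx hy => exact hx.add b hy

lemma Nice.tensor (h : Nice b M) (h' : Nice b M') : Nice b (M ⊗[ℂ] M') where
  good x := (Good.tensor h.good h'.good x).mono b le_top
  diag e he x := by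
    induction x using TensorProduct.induction_on with
    | zero => exact Submodule.zero_mem _
    | tmul x y =>
      exact Eig_bilin (TensorProduct.mk ℂ M M')
        (fun x y => TensorProduct.LieModule.lie_tmul_right e x y)
        (fun a ha b hb => Kz_add_Kz ha hb) (h.diag e he x) (h'.diag e he y)
    | add x y hx hy => exact Submodule.add_mem _ hx hy

end tensor

end

end K4H17.WF
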