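import Mathlib

/-! # Lie module structures on products, powers and tensor algebras -/

namespace K4H17.WF

open Module

set_option linter.unusedSectionVars false

section

variable {L : Type*} [LieRing L] [LieAlgebra ℂ L]
variable {M : Type*} [AddCommGroup M] [Module ℂ M] [LieRingModule L M] [LieModule ℂ L M]
variable {M' : Type*} [AddCommGroup M'] [Module ℂ M'] [LieRingModule L M'] [LieModule ℂ L M']

/-- The direct sum `M × M'` of two Lie modules: `a · (x, y) = (a · x, a · y)`. -/
instance instLieRingModuleProd : LieRingModule L (M × M') where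
  bracket a x := (⁅a, x.1⁆, ⁅a, x.2⁆)
  add_lie a b x := by simp
  lie_add a x y := by simp
  leibniz_lie a b x := by simp

@[simp] lemma lie_prod (a : L) (x : M × M') : ⁅a, x⁆ = (⁅a, x.1⁆, ⁅a, x.2⁆) := rfl

instance instLieModuleProd : LieModule ℂ L (M × M') where
  smul_lie t a x := by simp
  lie_smul t a x := by simp

/-- The direct sum `κ → M` of copies of a Lie module, with the coordinatewise action. -/
instance instLieRingModulePow {κ : Type*} : LieRingModule L (κ → M) where
  bracket a x := fun i => ⁅a, x i⁆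
  add_lie a b x := by ext i; simp
  lie_add a x y := by ext i; simp
  leibniz_lie a b x := by ext i; simp

@[simp] lemma lie_pow {κ : Type*} (a : L) (x : κ → M) (i : κ) : ⁅a, x⁆ i = ⁅a, x i⁆ := rfl

instance instLieModulePow {κ : Type*} : LieModule ℂ L (κ → M) where
  smul_lie t a x := by ext i; simp
  lie_smul t a x := by ext i; simp

end

section

variable {R : Type*} [AddCommGroup R] [Module ℂ R]

/-- The algebra homomorphism `T(R) → T(R) ⊕ T(R) ε` (`ε² = 0`) with `r ↦ r + f(r) ε`. -/
noncomputable def derivHom (f : R →ₗ[ℂ] R) :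
    TensorAlgebra ℂ R →ₐ[ℂ] TrivSqZeroExt (TensorAlgebra ℂ R) (TensorAlgebra ℂ R) :=
  TensorAlgebra.lift ℂ
    ((TrivSqZeroExt.inlAlgHom ℂ (TensorAlgebra ℂ R) (TensorAlgebra ℂ R)).toLinearMap ∘ₗ
        TensorAlgebra.ι ℂ +
      ((TrivSqZeroExt.inrHom (TensorAlgebra ℂ R) (TensorAlgebra ℂ R)).restrictScalars ℂ) ∘ₗ
        TensorAlgebra.ι ℂ ∘ₗ f)

lemma fst_derivHom (f : R →ₗ[ℂ] R) (x : TensorAlgebra ℂ R) : (derivHom f x).fst = x := by
  have : (TrivSqZeroExt.fstHom ℂ (TensorAlgebra ℂ R) (TensorAlgebra ℂ R)).comp (derivHom f)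
      = AlgHom.id ℂ _ := by
    apply TensorAlgebra.hom_ext
    ext r
    simp [derivHom]
  exact DFunLike.congr_fun this x

/-- Every linear map `f : R → R` extends to a derivation of the tensor algebra `T(R)`. -/
lemma exists_deriv (f : R →ₗ[ℂ] R) : ∃ D : TensorAlgebra ℂ R →ₗ[ℂ] TensorAlgebra ℂ R,
    (∀ r : R, D (TensorAlgebra.ι ℂ r) = TensorAlgebra.ι ℂ (f r)) ∧
    ∀ x y : TensorAlgebra ℂ R, D (x * y) = D x * y + x * D y := by
  let D : TensorAlgebra ℂ R →ₗ[ℂ] TensorAlgebra ℂ R :=
    ((TrivSqZeroExt.sndHom (TensorAlgebra ℂ R) (TensorAlgebra ℂ R)).restrictScalars ℂ) ∘ₗ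
      (derivHom f).toLinearMap
  refine ⟨D, fun r => ?_, fun x y => ?_⟩
  · simp [D, derivHom]
  · have h : D (x * y) = (derivHom f (x * y)).snd := rfl
    rw [h, map_mul, TrivSqZeroExt.snd_mul, fst_derivHom, fst_derivHom]
    simp only [smul_eq_mul, MulOpposite.smul_eq_mul_unop, MulOpposite.unop_op]
    rw [add_comm]
    rfl

/-- The derivation of the tensor algebra `T(R)` that extends the linear map `f : R → R`. -/
noncomputable def deriv (f : R →ₗ[ℂ] R) : TensorAlgebra ℂ R →ₗ[ℂ] TensorAlgebra ℂ R :=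
  Classical.choose (exists_deriv f)

@[simp] lemma deriv_ι (f : R →ₗ[ℂ] R) (r : R) :
    deriv f (TensorAlgebra.ι ℂ r) = TensorAlgebra.ι ℂ (f r) :=
  (Classical.choose_spec (exists_deriv f)).1 r

@[simp] lemma deriv_mul (f : R →ₗ[ℂ] R) (x y : TensorAlgebra ℂ R) :
    deriv f (x * y) = deriv f x * y + x * deriv f y :=
  (Classical.choose_spec (exists_deriv f)).2 x y

@[simp] lemma deriv_algebraMap (f : R →ₗ[ℂ] R) (z : ℂ) :
    deriv f (algebraMap ℂ _ z) = 0 := by
  have h : deriv f 1 = 0 := by
    have := deriv_mul f 1 1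
    rw [mul_one, mul_one, one_mul] at this
    simpa using this
  rw [Algebra.algebraMap_eq_smul_one, map_smul, h, smul_zero]

end

section

variable {L : Type*} [LieRing L] [LieAlgebra ℂ L]
variable {R : Type*} [AddCommGroup R] [Module ℂ R] [LieRingModule L R] [LieModule ℂ L R]

/-- The tensor algebra `T(R)` of a Lie module `R`: `a ∈ L` acts as the derivation that extends the
action of `a` on `R`. -/
noncomputable instance instLieRingModuleTensorAlgebra : LieRingModule L (TensorAlgebra ℂ R) where
  bracket a x := deriv (LieModule.toEnd ℂ L R a) x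
  add_lie a b x := by
    induction x using TensorAlgebra.induction with
    | algebraMap r => simp
    | ι x => simp
    | mul x y hx hy =>
      simp only [deriv_mul, hx, hy]
      noncomm_ring
    | add x y hx hy =>
      simp only [map_add] at hx hy ⊢
      rw [hx, hy]
      abel
  lie_add a x y := by simp
  leibniz_lie a b x := by
    induction x using TensorAlgebra.induction with
    | algebraMap r => simp
    | ι x => simp
    | mul x y hx hy =>
      simp only [deriv_mul, map_add, hx, hy]
      noncomm_ring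
    | add x y hx hy =>
      simp only [map_add] at hx hy ⊢
      rw [hx, hy]
      abel

lemma lie_tensorAlgebra (a : L) (x : TensorAlgebra ℂ R) :
    ⁅a, x⁆ = deriv (LieModule.toEnd ℂ L R a) x := rfl

noncomputable instance instLieModuleTensorAlgebra : LieModule ℂ L (TensorAlgebra ℂ R) where
  smul_lie t a x := by
    simp only [lie_tensorAlgebra]
    induction x using TensorAlgebra.induction with
    | algebraMap r => simp
    | ι x => simp
    | mul x y hx hy =>
      rw [deriv_mul, deriv_mul, hx, hy, smul_add, smul_mul_assoc, mul_smul_comm]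
    | add x y hx hy => rw [map_add, map_add, hx, hy, smul_add]
  lie_smul t a x := by simp [lie_tensorAlgebra]

@[simp] lemma lie_ι (a : L) (r : R) :
    ⁅a, TensorAlgebra.ι ℂ r⁆ = TensorAlgebra.ι ℂ ⁅a, r⁆ := by simp [lie_tensorAlgebra]

@[simp] lemma lie_algebraMap (a : L) (z : ℂ) :
    ⁅a, algebraMap ℂ (TensorAlgebra ℂ R) z⁆ = 0 := by simp [lie_tensorAlgebra]

@[simp] lemma lie_tmul (a : L) (x y : TensorAlgebra ℂ R) :
    ⁅a, x * y⁆ = ⁅a, x⁆ * y + x * ⁅a, y⁆ := by simp [lie_tensorAlgebra]

end

end K4H17.WF
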