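import Pool.Agent.K4H17.WF.Pull

/-! # Objects of the two categories correspond -/

namespace K4H17.WF

open Module TensorProduct

set_option linter.unusedSectionVars false
set_option maxHeartbeats 400000
set_option synthInstance.maxHeartbeats 40000

noncomputable section

variable {ι V : Type*} [AddCommGroup V] [Module ℂ V] (b : Basis ι ℂ V)

/-- The inclusion `V ⊕ V_* → V ⊕ V^*`. -/
def jR : (V × VStar b) →ₗ[ℂ] V × Dual ℂ V :=
  LinearMap.prodMap LinearMap.id ((dualMod b).incl : dualMod b →ₗ[ℂ] Dual ℂ V)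

lemma jR_apply (x : V × VStar b) : jR b x = (x.1, (x.2 : Dual ℂ V)) := rfl

lemma lie_jR (a : SL b) (x : V × VStar b) :
    jR b ⁅a, x⁆ = ⁅(a : Module.End ℂ V), jR b x⁆ := rfl

lemma jR_injective : Function.Injective (jR b) := by
  intro x y h
  rw [jR_apply, jR_apply, Prod.mk.injEq] at h
  exact Prod.ext h.1 (Subtype.ext h.2)

/-- The inclusion `T(V ⊕ V_*) → T(V ⊕ V^*)`. -/
def jT : TensorAlgebra ℂ (V × VStar b) →ₐ[ℂ] TensorAlgebra ℂ (V × Dual ℂ V) :=
  TensorAlgebra.lift ℂ (TensorAlgebra.ι ℂ ∘ₗ jR b)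

lemma jT_ι (x : V × VStar b) : jT b (TensorAlgebra.ι ℂ x) = TensorAlgebra.ι ℂ (jR b x) := by
  rw [jT, TensorAlgebra.lift_ι_apply, LinearMap.comp_apply]

lemma lie_jT (a : SL b) (x : TensorAlgebra ℂ (V × VStar b)) :
    jT b ⁅a, x⁆ = ⁅(a : Module.End ℂ V), jT b x⁆ := by
  induction x using TensorAlgebra.induction with
  | algebraMap r => rw [lie_algebraMap, map_zero, AlgHom.commutes, lie_algebraMap]
  | ι x => rw [lie_ι, jT_ι, jT_ι, lie_ι, lie_jR]
  | mul x y hx hy => rw [lie_tmul, map_add, map_mul, map_mul, map_mul, lie_tmul, hx, hy]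
  | add x y hx hy => rw [lie_add, map_add, map_add, lie_add, hx, hy]

lemma jT_injective : Function.Injective (jT b) := by
  obtain ⟨r, hr⟩ := LinearMap.exists_leftInverse_of_injective (jR b)
    (LinearMap.ker_eq_bot.2 (jR_injective b))
  have h : (TensorAlgebra.lift ℂ (TensorAlgebra.ι ℂ ∘ₗ r)).comp (jT b) = AlgHom.id ℂ _ := by
    apply TensorAlgebra.hom_ext
    apply LinearMap.ext
    intro x
    have hr' : r (jR b x) = x := DFunLike.congr_fun hr x
    rw [LinearMap.comp_apply, LinearMap.comp_apply, AlgHom.toLinearMap_apply,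
      AlgHom.comp_apply, jT_ι, TensorAlgebra.lift_ι_apply, LinearMap.comp_apply, hr']
    rfl
  intro x y hxy
  have := congrArg (TensorAlgebra.lift ℂ (TensorAlgebra.ι ℂ ∘ₗ r)) hxy
  rw [← AlgHom.comp_apply, ← AlgHom.comp_apply, h] at this
  exact this

/-- The inclusion `T(V ⊕ V_*)^n → T(V ⊕ V^*)^n`. -/
def jP (n : ℕ) : (Fin n → TensorAlgebra ℂ (V × VStar b)) →ₗ[ℂ]
    (Fin n → TensorAlgebra ℂ (V × Dual ℂ V)) :=
  LinearMap.pi fun i => (jT b).toLinearMap ∘ₗ LinearMap.proj i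

lemma jP_apply (n : ℕ) (x : Fin n → TensorAlgebra ℂ (V × VStar b)) (i : Fin n) :
    jP b n x i = jT b (x i) := rfl

lemma lie_jP (n : ℕ) (a : SL b) (x : Fin n → TensorAlgebra ℂ (V × VStar b)) :
    jP b n ⁅a, x⁆ = ⁅(a : Module.End ℂ V), jP b n x⁆ := by
  funext i
  rw [jP_apply, lie_pow, lie_pow, jP_apply, lie_jT]

lemma jP_injective (n : ℕ) : Function.Injective (jP b n) := by
  intro x y h
  funext i
  exact jT_injective b (congrFun h i)

lemma jR_mem_GM (x : V × VStar b) : jR b x ∈ GM b (V × Dual ℂ V) := by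
  classical
  obtain ⟨S, hS⟩ := exists_pr_apply b x.1
  obtain ⟨T, hT⟩ := exists_comp_pr b x.2.2
  rw [jR_apply]
  refine mem_GM_prod.2 ⟨⟨S, fun c h1 h2 => ?_⟩, ⟨T, fun c h1 h2 => ?_⟩⟩
  · change c x.1 = 0
    rw [← hS S (Finset.Subset.refl _), ← Module.End.mul_apply, h2]; rfl
  · rw [lie_dual, ← hT T (Finset.Subset.refl _), LinearMap.comp_assoc,
      show pr b T ∘ₗ c = 0 from h1]
    simp

lemma jT_mem_GM (x : TensorAlgebra ℂ (V × VStar b)) :
    jT b x ∈ GM b (TensorAlgebra ℂ (V × Dual ℂ V)) := by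
  induction x using TensorAlgebra.induction with
  | algebraMap r =>
    rw [AlgHom.commutes]
    exact ⟨∅, fun c _ _ => lie_algebraMap c r⟩
  | ι x =>
    rw [jT_ι]
    exact GM_hom (TensorAlgebra.ι ℂ) (fun c x => (lie_ι c x).symm) (jR_mem_GM b x)
  | mul x y hx hy =>
    rw [map_mul]
    exact GM_bilin (LinearMap.mul ℂ (TensorAlgebra ℂ (V × Dual ℂ V)))
      (fun c x y => lie_tmul c x y) hx hy
  | add x y hx hy => rw [map_add]; exact add_mem hx hy

lemma jP_mem_GM (n : ℕ) (x : Fin n → TensorAlgebra ℂ (V × VStar b)) :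
    jP b n x ∈ GM b (Fin n → TensorAlgebra ℂ (V × Dual ℂ V)) := by
  classical
  have e : jP b n x = ∑ i, LinearMap.single ℂ
      (fun _ : Fin n => TensorAlgebra ℂ (V × Dual ℂ V)) i (jT b (x i)) := by
    funext j
    simp [LinearMap.coe_single, Finset.sum_apply, Pi.single_apply, jP_apply]
  rw [e]
  exact sum_mem fun i _ => GM_hom _ (lie_single i) (jT_mem_GM b (x i))

lemma nice_P (n : ℕ) : Nice b (Fin n → TensorAlgebra ℂ (V × Dual ℂ V)) :=
  (Nice.tensorAlgebra (nice_R b)).pow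

lemma exists_jP (n : ℕ) {x : Fin n → TensorAlgebra ℂ (V × Dual ℂ V)} (hx : x ∈ GM b _) :
    ∃ y, jP b n y = x := by
  have h1 : ∀ r : V × Dual ℂ V, Good b (Submodule.prod ⊤ (dualSpan b)) r := by
    intro r
    have e : r = LinearMap.inl ℂ V (Dual ℂ V) r.1 + LinearMap.inr ℂ V (Dual ℂ V) r.2 := by
      ext <;> simp
    rw [e]
    refine Good.add b ?_ ?_
    · refine (good_V b r.1).hom b (LinearMap.inl ℂ V (Dual ℂ V)) (by intro c x; simp) ?_
      intro x _
      exact ⟨trivial, by simp⟩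
    · refine (good_dual b r.2).hom b (LinearMap.inr ℂ V (Dual ℂ V)) (by intro c x; simp) ?_
      intro x hx
      exact ⟨trivial, by simpa using hx⟩
  have h2 : ∀ t : TensorAlgebra ℂ (V × Dual ℂ V),
      Good b (Subalgebra.toSubmodule (jT b).range) t := by
    intro t
    refine Good.tensorAlgebra h1 (jT b).range ?_ t
    rintro ⟨v, φ⟩ ⟨-, hφ⟩
    exact ⟨TensorAlgebra.ι ℂ (v, ⟨φ, hφ⟩), jT_ι b _⟩
  have h3 := (Good.pow (κ := Fin n) h2 x).mem_of_GM hx
  have h4 : ∀ i, ∃ y, jT b y = x i := fun i => h3 i trivial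
  choose y hy using h4
  exact ⟨y, funext fun i => by rw [jP_apply, hy]⟩

lemma lie_coe {M : Type*} [AddCommGroup M] [Module ℂ M] [LieRingModule (Module.End ℂ V) M]
    [LieModule ℂ (Module.End ℂ V) M] (a : SL b) (x : GM b M) :
    ((⁅a, x⁆ : GM b M) : M) = ⁅(a : Module.End ℂ V), (x : M)⁆ := rfl

variable {b}

lemma nice_of_isTensorModule {M : Type*} [AddCommGroup M] [Module ℂ M]
    [LieRingModule (Module.End ℂ V) M] [LieModule ℂ (Module.End ℂ V) M]
    (h : IsTensorModule (Module.End ℂ V) (V × Dual ℂ V) M) : Nice b M := by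
  obtain ⟨⟨n, N, f, hf⟩, -⟩ := h
  exact ((nice_P b n).sub N).of_surjective f hf

lemma isGM_jP (n : ℕ) : IsGM (b := b) (jP b n) where
  map_lie := lie_jP b n
  inj := jP_injective b n
  mem := jP_mem_GM b n
  surj := fun _ hx => exists_jP b n hx

/-- `GM` maps objects to objects. -/
theorem isTensorModule_GM [Infinite ι] {M : Type*} [AddCommGroup M] [Module ℂ M]
    [LieRingModule (Module.End ℂ V) M] [LieModule ℂ (Module.End ℂ V) M]
    (h : IsTensorModule (Module.End ℂ V) (V × Dual ℂ V) M) :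
    IsTensorModule (SL b) (V × VStar b) (GM b M) := by
  have hM : Nice b M := nice_of_isTensorModule h
  obtain ⟨⟨n, N, f, hf⟩, hfl⟩ := h
  exact ⟨⟨n, pullN (isGM_jP n) N, pushHom (isGM_jP n) N f,
    pushHom_surjective (isGM_jP n) N f (nice_P b n) hf⟩, finiteLength_of_iso (latIso hM) hfl⟩

end

end K4H17.WF
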