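import Pool.Agent.K4H17.WF.Functor

/-! # Subquotients of `P` and of `GM P` -/

namespace K4H17.WF

open Module TensorProduct

set_option linter.unusedSectionVars false
set_option maxHeartbeats 400000
set_option synthInstance.maxHeartbeats 40000

noncomputable section

lemma equiv_of_same_ker {L N P P' : Type*} [LieRing L] [LieAlgebra ℂ L]
    [AddCommGroup N] [Module ℂ N] [LieRingModule L N] [LieModule ℂ L N]
    [AddCommGroup P] [Module ℂ P] [LieRingModule L P] [LieModule ℂ L P]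
    [AddCommGroup P'] [Module ℂ P'] [LieRingModule L P'] [LieModule ℂ L P']
    (f : N →ₗ⁅ℂ,L⁆ P) (g : N →ₗ⁅ℂ,L⁆ P') (hf : Function.Surjective f)
    (hg : Function.Surjective g) (h : ∀ x, f x = 0 ↔ g x = 0) : Nonempty (P ≃ₗ⁅ℂ,L⁆ P') := by
  choose s hs using hf
  choose t ht using hg
  have h' : ∀ x y, f x = f y ↔ g x = g y := by
    intro x y
    rw [← sub_eq_zero, ← map_sub, h, map_sub, sub_eq_zero]
  have key : ∀ x, g (s (f x)) = g x := fun x => (h' _ _).1 (hs (f x))
  let e : P →ₗ⁅ℂ,L⁆ P' :=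
    { toFun := fun p => g (s p)
      map_add' := fun x y => by
        rw [← map_add, ← h', map_add, hs, hs, hs]
      map_smul' := fun a x => by
        rw [RingHom.id_apply, ← map_smul, ← h', map_smul, hs, hs]
      map_lie' := fun {a x} => by
        rw [← LieModuleHom.map_lie, ← h', LieModuleHom.map_lie, hs, hs] }
  refine ⟨{ e with
            invFun := fun p' => f (t p')
            left_inv := fun p => ?_
            right_inv := fun p' => ?_ }⟩
  · change f (t (g (s p))) = p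
    rw [(h' _ (s p)).2 (ht _), hs]
  · change g (s (f (t p'))) = p'
    rw [key, ht]

variable {ι V : Type*} [AddCommGroup V] [Module ℂ V] {b : Basis ι ℂ V}
variable {M : Type*} [AddCommGroup M] [Module ℂ M]
  [LieRingModule (Module.End ℂ V) M] [LieModule ℂ (Module.End ℂ V) M]
variable {P : Type*} [AddCommGroup P] [Module ℂ P]
  [LieRingModule (Module.End ℂ V) P] [LieModule ℂ (Module.End ℂ V) P]
variable {P' : Type*} [AddCommGroup P'] [Module ℂ P']
  [LieRingModule (SL b) P'] [LieModule ℂ (SL b) P']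

/-- `j` identifies `P'` with `GM P`. -/
structure IsGM (j : P' →ₗ[ℂ] P) : Prop where
  map_lie : ∀ (a : SL b) x, j ⁅a, x⁆ = ⁅(a : Module.End ℂ V), j x⁆
  inj : Function.Injective j
  mem : ∀ x, j x ∈ GM b P
  surj : ∀ x ∈ GM b P, ∃ y, j y = x

section pull

variable {j : P' →ₗ[ℂ] P} (hj : IsGM (b := b) j)
  (N : LieSubmodule ℂ (Module.End ℂ V) P)
  (f : N →ₗ⁅ℂ,Module.End ℂ V⁆ M)

/-- The preimage of `N` in `P'`. -/
def pullN : LieSubmodule ℂ (SL b) P' where
  carrier := {x | j x ∈ N}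
  zero_mem' := by
    change j 0 ∈ N
    rw [map_zero]; exact N.zero_mem
  add_mem' := by
    intro x y hx hy
    change j (x + y) ∈ N
    rw [map_add]; exact N.add_mem hx hy
  smul_mem' := by
    intro a x hx
    change j (a • x) ∈ N
    rw [map_smul]; exact N.smul_mem a hx
  lie_mem := by
    intro a x hx
    change j ⁅a, x⁆ ∈ N
    rw [hj.map_lie]; exact N.lie_mem hx

/-- `pullN → N`, a linear map. -/
def pullHom : pullN hj N →ₗ[ℂ] N where
  toFun x := ⟨j x, x.2⟩
  map_add' _ _ := Subtype.ext (map_add j _ _)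
  map_smul' _ _ := Subtype.ext (map_smul j _ _)

lemma pullHom_lie (a : SL b) (x : pullN hj N) :
    pullHom hj N ⁅a, x⁆ = ⁅(a : Module.End ℂ V), pullHom hj N x⁆ :=
  Subtype.ext (hj.map_lie a x)

lemma pullHom_mem (x : pullN hj N) : pullHom hj N x ∈ GM b N := by
  obtain ⟨S, hS⟩ := hj.mem x
  exact ⟨S, fun c h1 h2 => Subtype.ext (hS c h1 h2)⟩

lemma exists_pullHom {x : N} (hx : x ∈ GM b N) : ∃ y, pullHom hj N y = x := by
  have hx' : (x : P) ∈ GM b P := by
    obtain ⟨S, hS⟩ := hx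
    exact ⟨S, fun c h1 h2 => congrArg Subtype.val (hS c h1 h2)⟩
  obtain ⟨z, hz⟩ := hj.surj _ hx'
  have hz' : j z ∈ N := by rw [hz]; exact x.2
  exact ⟨⟨z, hz'⟩, Subtype.ext hz⟩

/-- `pullN → GM M`. -/
def pushHom : pullN hj N →ₗ⁅ℂ,SL b⁆ GM b M where
  toFun x := ⟨f (pullHom hj N x), GM_hom (f : N →ₗ[ℂ] M) (fun c x => f.map_lie c x)
        (pullHom_mem hj N x)⟩
  map_add' x y := Subtype.ext (by
    change f (pullHom hj N (x + y)) = f (pullHom hj N x) + f (pullHom hj N y)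
    rw [map_add, map_add])
  map_smul' a x := Subtype.ext (by
    change f (pullHom hj N (a • x)) = a • f (pullHom hj N x)
    rw [map_smul, map_smul])
  map_lie' {a x} := Subtype.ext (by
    change f (pullHom hj N ⁅a, x⁆) = ⁅(a : Module.End ℂ V), f (pullHom hj N x)⁆
    rw [pullHom_lie, LieModuleHom.map_lie])

lemma pushHom_apply (x : pullN hj N) : (pushHom hj N f x : M) = f (pullHom hj N x) := rfl

lemma pushHom_surjective (hP : Nice b P) (hf : Function.Surjective f) :
    Function.Surjective (pushHom hj N f) := by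
  rintro ⟨y, hy⟩
  obtain ⟨x, hx, rfl⟩ := exists_lift hf (hP.sub N) hy
  obtain ⟨z, rfl⟩ := exists_pullHom hj N hx
  exact ⟨z, Subtype.ext (pushHom_apply hj N f z)⟩

end pull

/-- Every subquotient of `P' = GM P` is `GM` of a subquotient of `P`. -/
theorem exists_subquotient [Infinite ι] {j : P' →ₗ[ℂ] P} (hj : IsGM (b := b) j) (hP : Nice b P)
    {D : Type*} [AddCommGroup D] [Module ℂ D] [LieRingModule (SL b) D] [LieModule ℂ (SL b) D]
    (N' : LieSubmodule ℂ (SL b) P') (g : N' →ₗ⁅ℂ,SL b⁆ D) (hg : Function.Surjective g) :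
    ∃ (N : LieSubmodule ℂ (Module.End ℂ V) P) (K : LieSubmodule ℂ (Module.End ℂ V) N),
      Nonempty (GM b (N ⧸ K) ≃ₗ⁅ℂ,SL b⁆ D) := by
  let W₁ : LieSubmodule ℂ (SL b) P :=
    { carrier := {p | ∃ x : N', j x = p}
      zero_mem' := ⟨0, map_zero j⟩
      add_mem' := by
        rintro _ _ ⟨x, rfl⟩ ⟨y, rfl⟩
        exact ⟨x + y, map_add j _ _⟩
      smul_mem' := by
        rintro a _ ⟨x, rfl⟩
        exact ⟨a • x, map_smul j _ _⟩
      lie_mem := by
        rintro a _ ⟨x, rfl⟩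
        exact ⟨⁅a, x⁆, hj.map_lie a x⟩ }
  let W₀ : LieSubmodule ℂ (SL b) P :=
    { carrier := {p | ∃ x : N', g x = 0 ∧ j x = p}
      zero_mem' := ⟨0, map_zero g, map_zero j⟩
      add_mem' := by
        rintro _ _ ⟨x, hx, rfl⟩ ⟨y, hy, rfl⟩
        exact ⟨x + y, by rw [map_add, hx, hy, add_zero], map_add j _ _⟩
      smul_mem' := by
        rintro a _ ⟨x, hx, rfl⟩
        exact ⟨a • x, by rw [map_smul, hx, smul_zero], map_smul j _ _⟩
      lie_mem := by
        rintro a _ ⟨x, hx, rfl⟩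
        exact ⟨⁅a, x⁆, by rw [LieModuleHom.map_lie, hx, lie_zero], hj.map_lie a x⟩ }
  have hW₁ : W₁ ≤ GM b P := by
    rintro _ ⟨x, rfl⟩
    exact hj.mem _
  have hW₀ : W₀ ≤ GM b P := by
    rintro _ ⟨x, -, rfl⟩
    exact hj.mem _
  let N := sharp hP W₁ hW₁
  let K' := sharp hP W₀ hW₀
  let K : LieSubmodule ℂ (Module.End ℂ V) N := K'.comap N.incl
  have hN1 : ∀ x : P', x ∈ pullN hj N → x ∈ N' := by
    intro x hx
    obtain ⟨y, hy⟩ := (mem_sharp_iff hP W₁ hW₁ (hj.mem x)).1 hx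
    rw [← hj.inj hy]; exact y.2
  have hN2 : ∀ x : N', (x : P') ∈ pullN hj N := by
    intro x
    exact (mem_sharp_iff hP W₁ hW₁ (hj.mem _)).2 ⟨x, rfl⟩
  let φ : N' →ₗ⁅ℂ,SL b⁆ pullN hj N :=
    { toFun := fun x => ⟨x, hN2 x⟩
      map_add' := fun _ _ => rfl
      map_smul' := fun _ _ => rfl
      map_lie' := rfl }
  have hφ : Function.Surjective φ := by
    rintro ⟨x, hx⟩
    exact ⟨⟨x, hN1 x hx⟩, rfl⟩
  let q : N →ₗ⁅ℂ,Module.End ℂ V⁆ (N ⧸ K) := LieSubmodule.Quotient.mk' K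
  have hq : Function.Surjective q := LieSubmodule.Quotient.surjective_mk' K
  refine ⟨N, K, equiv_of_same_ker ((pushHom hj N q).comp φ) g ?_ hg ?_⟩
  · exact (pushHom_surjective hj N q hP hq).comp hφ
  · intro x
    have h1 : ((pushHom hj N q).comp φ) x = 0 ↔ q (pullHom hj N (φ x)) = 0 := by
      constructor
      · intro h
        exact congrArg Subtype.val h
      · intro h
        exact Subtype.ext h
    have h2 : q (pullHom hj N (φ x)) = 0 ↔ pullHom hj N (φ x) ∈ K := by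
      exact LieSubmodule.Quotient.mk_eq_zero' 
    have h3 : pullHom hj N (φ x) ∈ K ↔ j x ∈ W₀ := mem_sharp_iff hP W₀ hW₀ (hj.mem _)
    rw [h1, h2, h3]
    constructor
    · rintro ⟨y, hy, e⟩
      have : y = x := Subtype.ext (hj.inj e)
      rwa [← this]
    · intro h
      exact ⟨x, h, rfl⟩

end

end K4H17.WF
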