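import Pool.Agent.K4H17.WF.Defs

/-! # The properties of the weight functor -/

namespace K4H17.WF

open Module TensorProduct

noncomputable section

universe u v

variable {ι : Type v} {V : Type u} [AddCommGroup V] [Module ℂ V] (b : Basis ι ℂ V)

/-- The `End(V)`-module `M` is an object of `T_{End(V)}`. -/
def IsObjEnd (V : Type u) [AddCommGroup V] [Module ℂ V] (M : Type u) [AddCommGroup M]
    [Module ℂ M] [LieRingModule (Module.End ℂ V) M] [LieModule ℂ (Module.End ℂ V) M] : Prop :=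
  IsTensorModule (Module.End ℂ V) (V × Dual ℂ V) M

/-- The `𝔤`-module `D` is an object of `T_𝔤`, `𝔤 = sl(V, V_*)`. -/
def IsObjSL (D : Type u) [AddCommGroup D] [Module ℂ D] [LieRingModule (SL b) D]
    [LieModule ℂ (SL b) D] : Prop :=
  IsTensorModule (SL b) (V × VStar b) D

/-- The subspace `Γ^wt(M)` of `M` is stable under `𝔤`. -/
def IsStable (M : Type u) [AddCommGroup M] [Module ℂ M]
    [LieRingModule (Module.End ℂ V) M] [LieModule ℂ (Module.End ℂ V) M] : Prop :=
  (GammaMod b M).toSubmodule = Gamma b M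

/-- Every homomorphism `M → M'` maps `Γ^wt(M)` into `Γ^wt(M')`. -/
def Restricts (M M' : Type u) [AddCommGroup M] [Module ℂ M]
    [LieRingModule (Module.End ℂ V) M] [LieModule ℂ (Module.End ℂ V) M]
    [AddCommGroup M'] [Module ℂ M'] [LieRingModule (Module.End ℂ V) M']
    [LieModule ℂ (Module.End ℂ V) M'] : Prop :=
  ∀ f : M →ₗ⁅ℂ,Module.End ℂ V⁆ M', ∀ x ∈ Gamma b M, f x ∈ Gamma b M'

/-- Every `𝔤`-homomorphism `Γ^wt(M) → Γ^wt(M')` is the restriction of exactly one
`End(V)`-homomorphism `M → M'`. -/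
def FullyFaithful (M M' : Type u) [AddCommGroup M] [Module ℂ M]
    [LieRingModule (Module.End ℂ V) M] [LieModule ℂ (Module.End ℂ V) M]
    [AddCommGroup M'] [Module ℂ M'] [LieRingModule (Module.End ℂ V) M']
    [LieModule ℂ (Module.End ℂ V) M'] : Prop :=
  ∀ F : GammaT b M →ₗ⁅ℂ,SL b⁆ GammaT b M', ∃! f : M →ₗ⁅ℂ,Module.End ℂ V⁆ M',
    ∀ x : GammaT b M, f x = F x

/-- For subspaces `P ⊆ M`, `P' ⊆ M'` and `Q ⊆ M ⊗ M'`: the map `P ⊗ P' → M ⊗ M'` is injective
with image `Q`. -/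
def IsTensorOf {M M' : Type u} [AddCommGroup M] [Module ℂ M] [AddCommGroup M'] [Module ℂ M']
    (P : Submodule ℂ M) (P' : Submodule ℂ M') (Q : Submodule ℂ (M ⊗[ℂ] M')) : Prop :=
  Function.Injective (TensorProduct.map P.subtype P'.subtype) ∧
  LinearMap.range (TensorProduct.map P.subtype P'.subtype) = Q

/-- The map `Γ^wt(M) ⊗ Γ^wt(M') → M ⊗ M'` is injective with image `Γ^wt(M ⊗ M')`. -/
def PreservesTensor (M M' : Type u) [AddCommGroup M] [Module ℂ M]
    [LieRingModule (Module.End ℂ V) M] [LieModule ℂ (Module.End ℂ V) M]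
    [AddCommGroup M'] [Module ℂ M'] [LieRingModule (Module.End ℂ V) M']
    [LieModule ℂ (Module.End ℂ V) M'] : Prop :=
  IsTensorOf (Gamma b M) (Gamma b M') (Gamma b (M ⊗[ℂ] M'))

/-- The `𝔤`-module `D` is isomorphic to `Γ^wt(M)` for an object `M` of `T_{End(V)}`. -/
def InEssImage (D : Type u) [AddCommGroup D] [Module ℂ D] [LieRingModule (SL b) D]
    [LieModule ℂ (SL b) D] : Prop :=
  ∃ (M : Type u) (_ : AddCommGroup M) (_ : Module ℂ M)
    (_ : LieRingModule (Module.End ℂ V) M) (_ : LieModule ℂ (Module.End ℂ V) M),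
    IsObjEnd V M ∧ Nonempty (GammaT b M ≃ₗ⁅ℂ,SL b⁆ D)

end

end K4H17.WF
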