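import Pool.Agent.K4H17.WF.Objects

/-! # The weight functor `Γ^wt : T_{End(V)} → T_{sl(V, V_*)}` -/

namespace K4H17.WF

open Module TensorProduct

set_option linter.unusedSectionVars false
set_option maxHeartbeats 400000
set_option synthInstance.maxHeartbeats 40000

noncomputable section

variable {ι V : Type*} [AddCommGroup V] [Module ℂ V] {b : Basis ι ℂ V}
variable {M : Type*} [AddCommGroup M] [Module ℂ M] [LieRingModule (Module.End ℂ V) M]
  [LieModule ℂ (Module.End ℂ V) M]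
variable {M' : Type*} [AddCommGroup M'] [Module ℂ M'] [LieRingModule (Module.End ℂ V) M']
  [LieModule ℂ (Module.End ℂ V) M']

lemma isTensorModule_of_eq [Infinite ι]
    (h : IsTensorModule (Module.End ℂ V) (V × Dual ℂ V) M)
    (G : LieSubmodule ℂ (SL b) M) (hG : G = GM b M) :
    IsTensorModule (SL b) (V × VStar b) G := by
  subst hG
  exact isTensorModule_GM h

lemma isTensorModule_GammaMod [Infinite ι]
    (h : IsTensorModule (Module.End ℂ V) (V × Dual ℂ V) M) :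
    IsTensorModule (SL b) (V × VStar b) (GammaT b M) :=
  isTensorModule_of_eq h (GammaMod b M) (GammaMod_eq (nice_of_isTensorModule h))

lemma map_GammaMod [Infinite ι]
    (h : IsTensorModule (Module.End ℂ V) (V × Dual ℂ V) M)
    (h' : IsTensorModule (Module.End ℂ V) (V × Dual ℂ V) M')
    (f : M →ₗ⁅ℂ,Module.End ℂ V⁆ M') {x : M} (hx : x ∈ GammaMod b M) : f x ∈ GammaMod b M' := by
  rw [GammaMod_eq (nice_of_isTensorModule h)] at hx
  rw [GammaMod_eq (nice_of_isTensorModule h')]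
  exact GM_hom (f : M →ₗ[ℂ] M') (fun c x => f.map_lie c x) hx

lemma exists_hom_of_eq [Infinite ι]
    (h : IsTensorModule (Module.End ℂ V) (V × Dual ℂ V) M)
    (h' : IsTensorModule (Module.End ℂ V) (V × Dual ℂ V) M')
    (G : LieSubmodule ℂ (SL b) M) (hG : G = GM b M)
    (G' : LieSubmodule ℂ (SL b) M') (hG' : G' = GM b M') :
    ∀ F : G →ₗ⁅ℂ,SL b⁆ G', ∃ f : M →ₗ⁅ℂ,Module.End ℂ V⁆ M', ∀ x : G, f x = F x := by
  subst hG
  subst hG'
  exact exists_hom (nice_of_isTensorModule h) (nice_of_isTensorModule h')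

lemma exists_hom_GammaMod [Infinite ι]
    (h : IsTensorModule (Module.End ℂ V) (V × Dual ℂ V) M)
    (h' : IsTensorModule (Module.End ℂ V) (V × Dual ℂ V) M') :
    ∀ F : GammaT b M →ₗ⁅ℂ,SL b⁆ GammaT b M', ∃ f : M →ₗ⁅ℂ,Module.End ℂ V⁆ M',
      ∀ x : GammaT b M, f x = F x :=
  exists_hom_of_eq h h' (GammaMod b M) (GammaMod_eq (nice_of_isTensorModule h))
    (GammaMod b M') (GammaMod_eq (nice_of_isTensorModule h'))

lemma hom_ext_GammaMod [Infinite ι]
    (h : IsTensorModule (Module.End ℂ V) (V × Dual ℂ V) M)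
    (f g : M →ₗ⁅ℂ,Module.End ℂ V⁆ M') (hfg : ∀ x ∈ GammaMod b M, f x = g x) : f = g := by
  rw [GammaMod_eq (nice_of_isTensorModule h)] at hfg
  exact hom_ext (nice_of_isTensorModule h) f g hfg

lemma equiv_of_eq {D : Type*} [AddCommGroup D] [Module ℂ D] [LieRingModule (SL b) D]
    [LieModule ℂ (SL b) D] (G : LieSubmodule ℂ (SL b) M) (hG : G = GM b M)
    (e : GM b M ≃ₗ⁅ℂ,SL b⁆ D) : Nonempty (G ≃ₗ⁅ℂ,SL b⁆ D) := by
  subst hG
  exact ⟨e⟩

lemma equiv_GammaMod [Infinite ι] (hM : Nice b M) {D : Type*} [AddCommGroup D] [Module ℂ D]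
    [LieRingModule (SL b) D] [LieModule ℂ (SL b) D] (e : GM b M ≃ₗ⁅ℂ,SL b⁆ D) :
    Nonempty (GammaT b M ≃ₗ⁅ℂ,SL b⁆ D) := equiv_of_eq (GammaMod b M) (GammaMod_eq hM) e

end

end K4H17.WF
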