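import Pool.Agent.K4H17.WF.Core

/-! # For nice modules the weight functor `Γ^wt` is `GM` -/

namespace K4H17.WF

open Module TensorProduct

set_option linter.unusedSectionVars false

noncomputable section

variable {ι V : Type*} [AddCommGroup V] [Module ℂ V] {b : Basis ι ℂ V}
variable {M : Type*} [AddCommGroup M] [Module ℂ M] [LieRingModule (Module.End ℂ V) M]
  [LieModule ℂ (Module.End ℂ V) M]

lemma exists_weight (w : Basis ι ℂ V) {z : M}
    (hz : ∀ h : SL b, h ∈ cartan b w → ∃ l : ℂ, ⁅h, z⁆ = l • z) :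
    ∃ lam, z ∈ weightSpace b M w lam := by
  by_cases h0 : z = 0
  · exact ⟨0, by rw [h0]; exact Submodule.zero_mem _⟩
  · have : ¬ ∀ φ : Dual ℂ M, φ z = 0 := fun h => h0 ((Module.forall_dual_apply_eq_zero_iff ℂ z).1 h)
    push Not at this
    obtain ⟨φ, hφ⟩ := this
    refine ⟨{ toFun := fun h => (φ z)⁻¹ * φ ⁅(h : SL b), z⁆
              map_add' := ?_
              map_smul' := ?_ }, ?_⟩
    · intro h h'
      rw [Submodule.coe_add, add_lie, map_add, mul_add]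
    · intro a h
      rw [Submodule.coe_smul, smul_lie, map_smul, smul_eq_mul, RingHom.id_apply, smul_eq_mul]
      ring
    · rw [mem_weightSpace]
      intro h
      obtain ⟨l, hl⟩ := hz h h.2
      change ⁅(h : SL b), z⁆ = ((φ z)⁻¹ * φ ⁅(h : SL b), z⁆) • z
      rw [hl, map_smul, smul_eq_mul, mul_comm l, ← mul_assoc, inv_mul_cancel₀ hφ, one_mul]

lemma comm_rankOne (w : Basis ι ℂ V) (γ δ : ι) : ⁅rankOne w γ, rankOne w δ⁆ = 0 := by
  by_cases h : γ = δ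
  · subst h; exact lie_self _
  · rw [Ring.lie_def, rankOne_mul_rankOne w h, rankOne_mul_rankOne w (Ne.symm h), sub_zero]

lemma exists_finset_basis (w : Basis ι ℂ V)
    (hw : Submodule.span ℂ (Set.range w.coord) = dualSpan b) (S : Finset ι) :
    ∃ T : Finset ι, ∀ γ ∉ T, pr b S * rankOne w γ = 0 ∧ rankOne w γ * pr b S = 0 := by
  classical
  choose F hF using fun i => exists_comp_pr w (φ := b.coord i) (by
    change b.coord i ∈ Submodule.span ℂ (Set.range w.coord)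
    rw [hw]
    exact Submodule.subset_span ⟨i, rfl⟩)
  refine ⟨(S.biUnion F) ∪ (S.biUnion fun i => (w.repr (b i)).support), fun γ hγ => ?_⟩
  rw [Finset.mem_union, not_or] at hγ
  obtain ⟨h1, h2⟩ := hγ
  constructor
  · have h3 : pr b S (w γ) = 0 := by
      rw [pr, LinearMap.sum_apply]
      refine Finset.sum_eq_zero fun i hi => ?_
      rw [rankOne_apply]
      have h4 := DFunLike.congr_fun (hF i (S.biUnion F) (Finset.subset_biUnion_of_mem F hi)) (w γ)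
      rw [LinearMap.comp_apply, pr_basis, if_neg h1, map_zero] at h4
      rw [← h4, zero_smul]
    ext v
    rw [Module.End.mul_apply, rankOne_apply, map_smul, h3, smul_zero]
    rfl
  · refine b.ext fun i => ?_
    rw [Module.End.mul_apply, pr_basis]
    split_ifs with hi
    · rw [rankOne_apply, Basis.coord_apply]
      have h4 : γ ∉ (w.repr (b i)).support := fun h =>
        h2 (Finset.mem_biUnion.2 ⟨i, hi, h⟩)
      rw [Finsupp.notMem_support_iff.1 h4, zero_smul]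
      rfl
    · rw [map_zero]; rfl

lemma GM_le_GammaCartan (hM : Nice b M) (w : Basis ι ℂ V)
    (hw : Submodule.span ℂ (Set.range w.coord) = dualSpan b) :
    (GM b M).toSubmodule ≤ GammaCartan b M w := by
  classical
  rintro y ⟨S, hS⟩
  obtain ⟨T, hT⟩ := exists_finset_basis (b := b) w hw S
  have hy0 : ∀ γ ∉ T, ⁅rankOne w γ, y⁆ = 0 := fun γ hγ => hS _ (hT γ hγ).1 (hT γ hγ).2
  have key : ∀ F : Finset ι, y ∈ Submodule.span ℂ {z : M | (∀ γ ∉ T, ⁅rankOne w γ, z⁆ = 0) ∧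
      ∀ γ ∈ F, ∃ l : ℂ, ⁅rankOne w γ, z⁆ = l • z} := by
    intro F
    induction F using Finset.induction_on with
    | empty => exact Submodule.subset_span ⟨hy0, by simp⟩
    | insert δ F hδ ih =>
      refine Submodule.span_le.mpr ?_ ih
      rintro z ⟨hz1, hz2⟩
      choose! l hl using hz2
      let N : Submodule ℂ M :=
        { carrier := {z | (∀ γ ∉ T, ⁅rankOne w γ, z⁆ = 0) ∧ ∀ γ ∈ F, ⁅rankOne w γ, z⁆ = l γ • z}
          zero_mem' := ⟨fun _ _ => lie_zero _, fun _ _ => by simp⟩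
          add_mem' := by
            rintro x y ⟨h1, h2⟩ ⟨h3, h4⟩
            exact ⟨fun γ hγ => by rw [lie_add, h1 γ hγ, h3 γ hγ, add_zero],
              fun γ hγ => by rw [lie_add, h2 γ hγ, h4 γ hγ, smul_add]⟩
          smul_mem' := by
            rintro a x ⟨h1, h2⟩
            exact ⟨fun γ hγ => by rw [lie_smul, h1 γ hγ, smul_zero],
              fun γ hγ => by rw [lie_smul, h2 γ hγ, smul_comm]⟩ }
      have hN : ∀ z ∈ N, ⁅rankOne w δ, z⁆ ∈ N := by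
        rintro z ⟨h1, h2⟩
        refine ⟨fun γ hγ => ?_, fun γ hγ => ?_⟩
        · rw [leibniz_lie, comm_rankOne, zero_lie, zero_add, h1 γ hγ, lie_zero]
        · rw [leibniz_lie, comm_rankOne, zero_lie, zero_add, h2 γ hγ, lie_smul]
      have h3 := eig_inf N hN (x := z) ⟨hz1, hl⟩ (hM.diag _ (rankOne_mul_self w δ) z)
      refine Submodule.span_mono ?_ h3
      rintro z' ⟨⟨h4, h5⟩, m, -, h6⟩
      refine ⟨h4, fun γ hγ => ?_⟩
      rw [Finset.mem_insert] at hγ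
      rcases hγ with rfl | hγ
      · exact ⟨m, h6⟩
      · exact ⟨l γ, h5 γ hγ⟩
  refine Submodule.span_le.mpr ?_ (key T)
  rintro z ⟨hz1, hz2⟩
  have hz3 : ∀ γ, ∃ l : ℂ, ⁅rankOne w γ, z⁆ = l • z := by
    intro γ
    by_cases hγ : γ ∈ T
    · exact hz2 γ hγ
    · exact ⟨0, by rw [hz1 γ hγ, zero_smul]⟩
  obtain ⟨lam, hlam⟩ : ∃ lam, z ∈ weightSpace b M w lam := by
    refine exists_weight w fun h hh => ?_
    refine Submodule.span_induction (p := fun h _ => ∃ l : ℂ, ⁅h, z⁆ = l • z) ?_ ?_ ?_ ?_ hh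
    · rintro h ⟨γ, δ, e⟩
      obtain ⟨l, hl⟩ := hz3 γ
      obtain ⟨m, hm⟩ := hz3 δ
      refine ⟨l - m, ?_⟩
      change ⁅(h : Module.End ℂ V), z⁆ = _
      rw [e, sub_lie, hl, hm, sub_smul]
    · exact ⟨0, by rw [zero_lie, zero_smul]⟩
    · rintro x y _ _ ⟨l, hl⟩ ⟨m, hm⟩
      exact ⟨l + m, by rw [add_lie, hl, hm, add_smul]⟩
    · rintro a x _ ⟨l, hl⟩
      exact ⟨a * l, by rw [smul_lie, hl, smul_smul]⟩
  exact (le_iSup (fun lam => weightSpace b M w lam) lam) hlam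

/-- Step 1: almost all `e_γ` kill a weight vector. -/
lemma exists_finset_kill {x : M} {γ₁ : ι} {μ : ι → ℂ} {S₀ : Finset ι}
    (h1 : ∀ γ, ⁅rankOne b γ - rankOne b γ₁, x⁆ = μ γ • x)
    (h2 : ∀ γ ∉ S₀, x ∈ Eig M (-(rankOne b γ)) Kn)
    (h3 : ∀ S, S₀ ⊆ S → x ∈ Eig M (pr b S - 1) Kn)  (hγ₁ : γ₁ ∉ S₀) :
    ∃ T : Finset ι, ∀ γ ∉ T, ⁅rankOne b γ, x⁆ = 0 := by
  classical
  have comm1 : ∀ γ δ, ⁅rankOne b γ, -rankOne b δ⁆ = 0 := fun γ δ => by
    rw [lie_neg, comm_rankOne, neg_zero]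
  have comm2 : ∀ (γ : ι) (S : Finset ι), ⁅rankOne b γ, pr b S - 1⁆ = 0 := fun γ S => by
    have e : ⁅rankOne b γ, pr b S⁆ = 0 := by
      rw [pr, lie_sum]
      exact Finset.sum_eq_zero fun i _ => comm_rankOne b γ i
    rw [lie_sub, e, Ring.lie_def, mul_one, one_mul]; abel
  have comm3 : ∀ (S T : Finset ι), ⁅pr b S - 1, pr b T - 1⁆ = 0 := fun S T => by
    have e : ⁅pr b S, pr b T - 1⁆ = 0 := by
      rw [← lie_skew, neg_eq_zero]
      conv_lhs => rw [pr.eq_1 b S]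
      rw [lie_sum]
      exact Finset.sum_eq_zero fun i _ => by rw [← lie_skew, comm2, neg_zero]
    rw [sub_lie, e, Ring.lie_def, mul_one, one_mul]; abel
  let N : Submodule ℂ M :=
    { carrier := {w | (∀ γ, ⁅rankOne b γ - rankOne b γ₁, w⁆ = μ γ • w) ∧
        (∀ γ ∉ S₀, w ∈ Eig M (-(rankOne b γ)) Kn) ∧ ∀ S, S₀ ⊆ S → w ∈ Eig M (pr b S - 1) Kn}
      zero_mem' := ⟨fun _ => by simp, fun _ _ => Submodule.zero_mem _,
        fun _ _ => Submodule.zero_mem _⟩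
      add_mem' := by
        rintro x y ⟨h1, h2, h3⟩ ⟨h1', h2', h3'⟩
        exact ⟨fun γ => by rw [lie_add, h1, h1', smul_add],
          fun γ hγ => Submodule.add_mem _ (h2 γ hγ) (h2' γ hγ),
          fun S hS => Submodule.add_mem _ (h3 S hS) (h3' S hS)⟩
      smul_mem' := by
        rintro a x ⟨h1, h2, h3⟩
        exact ⟨fun γ => by rw [lie_smul, h1, smul_comm],
          fun γ hγ => Submodule.smul_mem _ _ (h2 γ hγ),
          fun S hS => Submodule.smul_mem _ _ (h3 S hS)⟩ }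
  have hN1 : ∀ z ∈ N, ⁅-rankOne b γ₁, z⁆ ∈ N := by
    rintro z ⟨h1, h2, h3⟩
    refine ⟨fun γ => ?_, fun γ hγ => ?_, fun S hS => ?_⟩
    · rw [leibniz_lie, sub_lie, comm1, comm1, sub_zero, zero_lie, zero_add, h1, lie_smul]
    · refine Eig_stable_of_comm ?_ (h2 γ hγ)
      rw [neg_lie, comm1, neg_zero]
    · refine Eig_stable_of_comm ?_ (h3 S hS)
      rw [lie_neg, ← lie_skew, comm2, neg_zero, neg_zero]
  have hN2 : ∀ z ∈ N, ⁅pr b S₀ - 1, z⁆ ∈ N := by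
    rintro z ⟨h1, h2, h3⟩
    refine ⟨fun γ => ?_, fun γ hγ => ?_, fun S hS => ?_⟩
    · rw [leibniz_lie, sub_lie, comm2, comm2, sub_zero, zero_lie, zero_add, h1, lie_smul]
    · refine Eig_stable_of_comm ?_ (h2 γ hγ)
      rw [neg_lie, comm2, neg_zero]
    · exact Eig_stable_of_comm (comm3 _ _) (h3 S hS)
  let K : Submodule ℂ M :=
    { carrier := {x | ∃ T : Finset ι, ∀ γ ∉ T, ⁅rankOne b γ, x⁆ = 0}
      zero_mem' := ⟨∅, fun _ _ => lie_zero _⟩
      add_mem' := by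
        rintro x y ⟨S, hS⟩ ⟨T, hT⟩
        refine ⟨S ∪ T, fun γ hγ => ?_⟩
        rw [Finset.mem_union, not_or] at hγ
        rw [lie_add, hS γ hγ.1, hT γ hγ.2, add_zero]
      smul_mem' := by
        rintro a x ⟨S, hS⟩
        exact ⟨S, fun γ hγ => by rw [lie_smul, hS γ hγ, smul_zero]⟩ }
  change x ∈ K
  have hx1 := eig_inf N hN1 (x := x) ⟨h1, h2, h3⟩ (h2 γ₁ hγ₁)
  refine Submodule.span_le.mpr ?_ hx1
  rintro z ⟨hz, l, -, hl⟩
  let N' : Submodule ℂ M := N ⊓ LinearMap.ker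
    (LieModule.toEnd ℂ (Module.End ℂ V) M (-rankOne b γ₁) - l • LinearMap.id)
  have hN' : ∀ z ∈ N', ⁅pr b S₀ - 1, z⁆ ∈ N' := by
    rintro z ⟨hz1, hz2⟩
    refine ⟨hN2 z hz1, ?_⟩
    rw [SetLike.mem_coe, LinearMap.mem_ker] at hz2 ⊢
    simp only [LinearMap.sub_apply, LieModule.toEnd_apply_apply, LinearMap.smul_apply,
      LinearMap.id_apply, sub_eq_zero] at hz2 ⊢
    rw [leibniz_lie, neg_lie, comm2, neg_zero, zero_lie, zero_add, hz2, lie_smul]
  have hz' : z ∈ N' := by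
    refine ⟨hz, ?_⟩
    rw [SetLike.mem_coe, LinearMap.mem_ker]
    simp only [LinearMap.sub_apply, LieModule.toEnd_apply_apply, LinearMap.smul_apply,
      LinearMap.id_apply, sub_eq_zero]
    exact hl
  have hz1 := eig_inf N' hN' hz' (hz.2.2 S₀ (Finset.Subset.refl _))
  refine Submodule.span_le.mpr ?_ hz1
  rintro v ⟨⟨⟨hv1, hv2, hv3⟩, hv4⟩, _, ⟨k, rfl⟩, hk⟩
  rw [SetLike.mem_coe, LinearMap.mem_ker] at hv4
  simp only [LinearMap.sub_apply, LieModule.toEnd_apply_apply, LinearMap.smul_apply,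
      LinearMap.id_apply, sub_eq_zero] at hv4
  by_cases hv0 : v = 0
  · rw [hv0]; exact K.zero_mem
  have hm : ∀ γ, ⁅-rankOne b γ, v⁆ = (l - μ γ) • v := by
    intro γ
    have := hv1 γ
    rw [sub_lie] at this
    rw [neg_lie] at hv4 ⊢
    rw [sub_smul, ← this, ← hv4]
    abel
  have hn : ∀ γ ∉ S₀, ∃ n : ℕ, l - μ γ = n := fun γ hγ => mem_of_eig (hm γ) (hv2 γ hγ) hv0
  choose! n hn using hn
  have hsum : ∀ F : Finset ι, (∀ γ ∈ F, γ ∉ S₀) → ∑ γ ∈ F, n γ ≤ k := by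
    intro F hF
    have hd : Disjoint S₀ F := Finset.disjoint_left.2 fun a ha hb => hF a hb ha
    have e1 : pr b (S₀ ∪ F) - 1 = (pr b S₀ - 1) - ∑ γ ∈ F, (-rankOne b γ) := by
      rw [pr, Finset.sum_union hd, Finset.sum_neg_distrib, pr]; abel
    have e3 : ⁅∑ γ ∈ F, (-rankOne b γ), v⁆ = ∑ γ ∈ F, (n γ : ℂ) • v := by
      rw [sum_lie]
      refine Finset.sum_congr rfl fun γ hγ => ?_
      rw [hm γ, hn γ (hF γ hγ)]
    have e2 : ⁅pr b (S₀ ∪ F) - 1, v⁆ = ((k : ℂ) - ∑ γ ∈ F, (n γ : ℂ)) • v := by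
      rw [e1, sub_lie, hk, e3, sub_smul, Finset.sum_smul]
    obtain ⟨m, hm'⟩ := mem_of_eig e2 (hv3 _ Finset.subset_union_left) hv0
    have : ((∑ γ ∈ F, n γ : ℕ) : ℂ) + m = (k : ℕ) := by
      rw [← hm']; push_cast; ring
    have : ∑ γ ∈ F, n γ + m = k := by exact_mod_cast this
    omega
  have hfin : {γ | γ ∉ S₀ ∧ n γ ≠ 0}.Finite := by
    by_contra hinf
    obtain ⟨F, hF, hcard⟩ := Set.Infinite.exists_subset_card_eq hinf (k + 1)
    have h5 := hsum F fun γ hγ => (hF hγ).1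
    have h6 : ∑ γ ∈ F, 1 ≤ ∑ γ ∈ F, n γ :=
      Finset.sum_le_sum fun γ hγ => Nat.one_le_iff_ne_zero.2 (hF hγ).2
    rw [Finset.sum_const, hcard] at h6
    simp at h6
    omega
  refine ⟨S₀ ∪ hfin.toFinset, fun γ hγ => ?_⟩
  rw [Finset.mem_union, not_or, Set.Finite.mem_toFinset] at hγ
  have h7 : n γ = 0 := by
    by_contra h; exact hγ.2 ⟨hγ.1, h⟩
  have h8 := hm γ
  rw [hn γ hγ.1, h7, neg_lie] at h8
  simpa using h8

/-- Step 2. -/
lemma mem_GM_of_kill [Infinite ι] (hM : Nice b M) {x : M} {T : Finset ι}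
    (hx : ∀ γ ∉ T, ⁅rankOne b γ, x⁆ = 0) : x ∈ GM b M := by
  classical
  obtain ⟨S₀, hS₀⟩ := (hM.good x).mem_Q
  obtain ⟨y, hyZ, hy⟩ := hS₀ (S₀ ∪ T) Finset.subset_union_left
  set S₁ := S₀ ∪ T with hS₁
  have comm2 : ∀ (γ : ι) (S : Finset ι), ⁅rankOne b γ, pr b S - 1⁆ = 0 := fun γ S => by
    have e : ⁅rankOne b γ, pr b S⁆ = 0 := by
      rw [pr, lie_sum]
      exact Finset.sum_eq_zero fun i _ => comm_rankOne b γ i
    rw [lie_sub, e, Ring.lie_def, mul_one, one_mul]; abel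
  have hz1 : ∀ γ ∉ S₁, ⁅rankOne b γ, x - y⁆ = 0 := by
    intro γ hγ
    have hγT : γ ∉ T := fun h => hγ (Finset.mem_union_right _ h)
    rw [lie_sub, hx γ hγT, lie_rankOne_of_Z b hγ hyZ, sub_zero]
  let N : Submodule ℂ M :=
    { carrier := {w | ∀ γ ∉ S₁, ⁅rankOne b γ, w⁆ = 0}
      zero_mem' := fun _ _ => lie_zero _
      add_mem' := by
        rintro x y h1 h2 γ hγ
        rw [lie_add, h1 γ hγ, h2 γ hγ, add_zero]
      smul_mem' := by
        rintro a x h1 γ hγ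
        rw [lie_smul, h1 γ hγ, smul_zero] }
  have hN : ∀ w ∈ N, ⁅pr b S₁ - 1, w⁆ ∈ N := by
    intro w hw γ hγ
    rw [leibniz_lie, comm2, zero_lie, zero_add, hw γ hγ, lie_zero]
  have hz2 := eig_inf N hN hz1 hy.2
  have hz3 : ∀ S, S₁ ⊆ S → x - y ∈ Eig M (pr b S - 1) Kp := by
    intro S hS
    refine Submodule.span_le.mpr ?_ hz2
    rintro w ⟨hw, l, hl, e⟩
    refine mem_Eig hl ?_
    have e1 : pr b S - 1 = (pr b S₁ - 1) + ∑ γ ∈ S \ S₁, rankOne b γ := by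
      rw [pr, ← Finset.sum_sdiff hS, pr]; abel
    have e3 : ⁅∑ γ ∈ S \ S₁, rankOne b γ, w⁆ = 0 := by
      rw [sum_lie]
      exact Finset.sum_eq_zero fun γ hγ => hw γ (Finset.mem_sdiff.1 hγ).2
    rw [e1, add_lie, e, e3, add_zero]
  obtain ⟨X, hX, S₂, -, h2⟩ := hM.good (x - y)
  obtain ⟨S, hS, u, hu1, hu2, hu3⟩ := exists_idem (b := b) X hX (S₁ ∪ S₂)
  obtain ⟨y', -, hy2, hy3, h4⟩ := h2 S (Finset.union_subset_right hS)
  have h5 : Pr (pr b S - 1) (x - y) 0 :=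
    ⟨lie_zero _, by rw [sub_zero]; exact hz3 S (Finset.union_subset_left hS)⟩
  have h6 : y' = 0 := hy3.unique h5
  have h7 := h4 u hu1 hu2 hu3
  rw [h6] at h7
  have h8 : x - y = 0 := h7.unique (Pr.zero _)
  rw [sub_eq_zero] at h8
  rw [h8]
  exact ⟨S₁, hyZ⟩

lemma GammaCartan_le_GM [Infinite ι] (hM : Nice b M) :
    GammaCartan b M b ≤ (GM b M).toSubmodule := by
  refine iSup_le fun lam => ?_
  intro x hx
  rw [mem_weightSpace] at hx
  obtain ⟨X, hX, S₀, hg1, hg2⟩ := hM.good x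
  obtain ⟨γ₁, hγ₁⟩ := Infinite.exists_notMem_finset S₀
  have h1 : ∀ γ, ∃ μ : ℂ, ⁅rankOne b γ - rankOne b γ₁, x⁆ = μ • x := by
    intro γ
    let h : SL b := ⟨rankOne b γ - rankOne b γ₁, rankOne_sub_mem b b rfl γ γ₁⟩
    have hh : h ∈ cartan b b := Submodule.subset_span ⟨γ, γ₁, rfl⟩
    exact ⟨lam ⟨h, hh⟩, hx ⟨h, hh⟩⟩
  choose μ hμ using h1
  obtain ⟨T, hT⟩ := exists_finset_kill hμ hg1 (fun S hS => by
    obtain ⟨y, -, -, hy, -⟩ := hg2 S hS
    exact hy.mem_Kn) hγ₁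
  exact mem_GM_of_kill hM hT

set_option maxHeartbeats 400000 in
theorem Gamma_eq [Infinite ι] (hM : Nice b M) : Gamma b M = (GM b M).toSubmodule := by
  ext x
  rw [Gamma, Submodule.mem_iInf]
  constructor
  · intro h
    have h1 := (Submodule.mem_iInf _).1 (h b) rfl
    exact GammaCartan_le_GM hM h1
  · intro h w
    exact (Submodule.mem_iInf _).2 fun hw => GM_le_GammaCartan hM w hw h

set_option maxHeartbeats 400000 in
theorem GammaMod_eq [Infinite ι] (hM : Nice b M) : GammaMod b M = GM b M := by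
  rw [GammaMod, Gamma_eq hM, LieSubmodule.coe_toSubmodule]
  exact LieSubmodule.lieSpan_eq (GM b M)

end

end K4H17.WF
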